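import Pool.Agent.Helper25.Folk.Block
import Pool.Agent.Helper25.Folk.Cols1

/-! Kernel check of the Fourier block 1. -/

namespace Pool.Agent.Helper25.Folk

set_option maxRecDepth 100000

theorem len1 : cols1.length = 429 := by decide +kernel
theorem okc1 : okCols (fullc cols1 0) = true := by decide +kernel
theorem okr1_a : okRange 1 cols1 0 150 = true := by decide +kernel
theorem okr1_b : okRange 1 cols1 150 100 = true := by decide +kernel
theorem okr1_c : okRange 1 cols1 250 90 = true := by decide +kernel
theorem okr1_d : okRange 1 cols1 340 89 = true := by decide +kernel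

theorem block1 (y : ℕ → ℂ) : 0 ≤ Qh 2683 429 cl3 dm3 wR vR (dec 1) y := by
  refine Qh_of_checks 1 cols1 len1 okc1 ?_ y
  intro i hi
  rcases Nat.lt_or_ge i 150 with h1 | h1
  · have := okRange_spec 1 cols1 0 150 okr1_a i h1
    rw [Nat.zero_add] at this
    exact this
  rcases Nat.lt_or_ge i 250 with h2 | h2
  · have := okRange_spec 1 cols1 150 100 okr1_b (i - 150) (by omega)
    rw [show 150 + (i - 150) = i by omega] at this
    exact this
  rcases Nat.lt_or_ge i 340 with h3 | h3
  · have := okRange_spec 1 cols1 250 90 okr1_c (i - 250) (by omega)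
    rw [show 250 + (i - 250) = i by omega] at this
    exact this
  · have := okRange_spec 1 cols1 340 89 okr1_d (i - 340) (by omega)
    rw [show 340 + (i - 340) = i by omega] at this
    exact this

end Pool.Agent.Helper25.Folk
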