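import Pool.Agent.Helper25.Folk.Real

/-!
Nonnegativity of a Fourier block from the row estimates.
-/

namespace Pool.Agent.Helper25.Folk

open Finset Complex

/-- the weights -/
noncomputable def wR (t : ℕ) : ℝ := (wN t : ℝ)
/-- the values -/
noncomputable def vR (i : ℕ) : ℝ := (vN i : ℝ) - 1716

theorem sum_iv (f : ℕ → ℝ) : ∑ i ∈ range 429, f (iv i) = ∑ i ∈ range 429, f i := by
  refine Finset.sum_nbij' iv iv ?_ ?_ ?_ ?_ ?_
  · intro i hi; exact mem_range.mpr (cls i (mem_range.mp hi)).ivlt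
  · intro i hi; exact mem_range.mpr (cls i (mem_range.mp hi)).ivlt
  · intro i hi; exact (cls i (mem_range.mp hi)).iviv
  · intro i hi; exact (cls i (mem_range.mp hi)).iviv
  · intro i _; rfl

section real

variable (y : ℕ → ℂ) (hy : ∀ i ∈ range 429, y (iv i) = (starRingEnd ℂ) (y i))

theorem sq_sum (f : ℕ → ℕ) : (∑ v ∈ range 429, pp y v * (f v : ℝ)) ^ 2
    = ∑ i ∈ range 429, ∑ j ∈ range 429, ((f i : ℝ) * f j) * (pp y i * pp y j) := by
  rw [pow_two, Finset.sum_mul_sum]
  apply Finset.sum_congr rfl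
  intro i _
  apply Finset.sum_congr rfl
  intro j _
  ring

include hy in
theorem tri_sum (u : ℕ) : ∑ t ∈ range 2683, wR t * (2 * ‖zt cl3 dm3 (dec u) y t‖ ^ 2)
    = ∑ i ∈ range 429, ∑ j ∈ range 429, ((NP u i j : ℝ) - NM i j) * (pp y i * pp y j) := by
  have e1 : ∀ t ∈ range 2683, wR t * (2 * ‖zt cl3 dm3 (dec u) y t‖ ^ 2)
      = ∑ i ∈ range 429, ∑ j ∈ range 429, ((cfP u t i j : ℝ) - cfM t i j) * (pp y i * pp y j) := by
    intro t ht
    rw [tri_real y hy u t (mem_range.mp ht), sq_sum, sq_sum, sq_sum, sq_sum,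
      ← Finset.sum_add_distrib, ← Finset.sum_add_distrib, Finset.mul_sum, ← Finset.sum_sub_distrib,
      Finset.mul_sum]
    apply Finset.sum_congr rfl
    intro i _
    rw [← Finset.sum_add_distrib, ← Finset.sum_add_distrib, Finset.mul_sum, ← Finset.sum_sub_distrib,
      Finset.mul_sum]
    apply Finset.sum_congr rfl
    intro j _
    unfold cfP cfM wR
    push_cast
    ring
  rw [Finset.sum_congr rfl e1, Finset.sum_comm]
  apply Finset.sum_congr rfl
  intro i _
  rw [Finset.sum_comm]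
  apply Finset.sum_congr rfl
  intro j _
  rw [← Finset.sum_mul, Finset.sum_sub_distrib]
  unfold NP NM
  push_cast
  rfl

include hy in
theorem val_sum : ∑ i ∈ range 429, (vN i : ℝ) * (2 * ‖y i‖ ^ 2)
    = ∑ i ∈ range 429, ∑ j ∈ range 429, ((vd i j : ℝ) - vo i j) * (pp y i * pp y j) := by
  have e1 : ∀ i ∈ range 429, ∑ j ∈ range 429, ((vd i j : ℝ) - vo i j) * (pp y i * pp y j)
      = (vN i : ℝ) * (2 * ‖y i‖ ^ 2)
        + ((if iv i = i then 0 else 2 * (vN i : ℝ) * pp y i ^ 2)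
          - (if iv i = i then 0 else 2 * (vN i : ℝ) * pp y (iv i) ^ 2)) := by
    intro i hi
    have hi' := mem_range.mp hi
    have C := cls i hi'
    have f1 : ∑ j ∈ range 429, ((vd i j : ℝ) - vo i j) * (pp y i * pp y j)
        = ∑ j ∈ range 429, (vd i j : ℝ) * (pp y i * pp y j) - ∑ j ∈ range 429, (vo i j : ℝ) * (pp y i * pp y j) := by
      rw [← Finset.sum_sub_distrib]
      apply Finset.sum_congr rfl
      intro j _
      ring
    have f2 : ∑ j ∈ range 429, (vd i j : ℝ) * (pp y i * pp y j)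
        = ((if iv i = i then 2 else 4) * (vN i : ℝ)) * (pp y i * pp y i) := by
      rw [Finset.sum_eq_single i]
      · unfold vd
        rw [if_pos rfl]
        push_cast
        rfl
      · intro j _ hj
        unfold vd
        rw [if_neg hj, Nat.cast_zero, zero_mul]
      · intro h; exact absurd hi h
    have f3 : ∑ j ∈ range 429, (vo i j : ℝ) * (pp y i * pp y j)
        = if iv i = i then 0 else (2 * (vN i : ℝ)) * (pp y i * pp y (iv i)) := by
      by_cases h : iv i = i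
      · rw [if_pos h]
        apply Finset.sum_eq_zero
        intro j _
        unfold vo
        rw [if_neg (fun h2 => h2.1 h), Nat.cast_zero, zero_mul]
      · rw [if_neg h, Finset.sum_eq_single (iv i)]
        · unfold vo
          rw [if_pos ⟨h, rfl⟩]
          push_cast
          rfl
        · intro j _ hj
          unfold vo
          rw [if_neg (fun h2 => hj h2.2), Nat.cast_zero, zero_mul]
        · intro h2; exact absurd (mem_range.mpr C.ivlt) h2
    rw [f1, f2, f3]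
    by_cases h : iv i = i
    · rw [if_pos h, if_pos h, if_pos h, if_pos h, norm_y_self y hy i hi' h]
      ring
    · rw [if_neg h, if_neg h, if_neg h, if_neg h, norm_y_ne y hy i hi' h]
      ring
  rw [Finset.sum_congr rfl e1, Finset.sum_add_distrib, Finset.sum_sub_distrib]
  have e2 : ∑ i ∈ range 429, (if iv i = i then 0 else 2 * (vN i : ℝ) * pp y (iv i) ^ 2)
      = ∑ i ∈ range 429, (if iv i = i then 0 else 2 * (vN i : ℝ) * pp y i ^ 2) := by
    rw [← sum_iv (fun i => if iv i = i then 0 else 2 * (vN i : ℝ) * pp y i ^ 2)]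
    apply Finset.sum_congr rfl
    intro i hi
    have C := cls i (mem_range.mp hi)
    have e3 : (iv (iv i) = iv i) ↔ (iv i = i) := by
      rw [C.iviv]; exact eq_comm
    simp only [e3, C.viv]
  rw [e2]
  ring

include hy in
/-- twice the form is the quadratic form of the Gram matrix -/
theorem two_Qh (u : ℕ) :
    2 * (∑ t ∈ range 2683, wR t * ‖zt cl3 dm3 (dec u) y t‖ ^ 2 - ∑ i ∈ range 429, (vN i : ℝ) * ‖y i‖ ^ 2)
      = ∑ i ∈ range 429, ∑ j ∈ range 429, (NN u i j : ℝ) * (pp y i * pp y j) := by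
  have h1 := tri_sum y hy u
  have h2 := val_sum y hy
  have e1 : 2 * (∑ t ∈ range 2683, wR t * ‖zt cl3 dm3 (dec u) y t‖ ^ 2
      - ∑ i ∈ range 429, (vN i : ℝ) * ‖y i‖ ^ 2)
      = ∑ t ∈ range 2683, wR t * (2 * ‖zt cl3 dm3 (dec u) y t‖ ^ 2)
        - ∑ i ∈ range 429, (vN i : ℝ) * (2 * ‖y i‖ ^ 2) := by
    rw [mul_sub, Finset.mul_sum, Finset.mul_sum]
    refine congrArg₂ (fun a b : ℝ => a - b) ?_ ?_
    · apply Finset.sum_congr rfl
      intro t _
      ring
    · apply Finset.sum_congr rfl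
      intro t _
      ring
  rw [e1, h1, h2, ← Finset.sum_sub_distrib]
  apply Finset.sum_congr rfl
  intro i _
  rw [← Finset.sum_sub_distrib]
  apply Finset.sum_congr rfl
  intro j _
  unfold NN
  push_cast
  ring

/-- the Gram matrix of the columns is nonnegative -/
theorem GG_nonneg (cols : List ℕ) (p : ℕ → ℝ) :
    0 ≤ ∑ i ∈ range 429, ∑ j ∈ range 429, (GG cols i j : ℝ) * (p i * p j) := by
  have e : ∑ i ∈ range 429, ∑ j ∈ range 429, (GG cols i j : ℝ) * (p i * p j)
      = ∑ k ∈ range 429, (∑ i ∈ range 429, (Le cols i k : ℝ) * p i) ^ 2 := by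
    have e1 : ∀ k ∈ range 429, (∑ i ∈ range 429, (Le cols i k : ℝ) * p i) ^ 2
        = ∑ i ∈ range 429, ∑ j ∈ range 429, ((Le cols i k : ℝ) * (Le cols j k : ℝ)) * (p i * p j) := by
      intro k _
      rw [pow_two, Finset.sum_mul_sum]
      apply Finset.sum_congr rfl
      intro i _
      apply Finset.sum_congr rfl
      intro j _
      ring
    rw [Finset.sum_congr rfl e1]
    rw [Finset.sum_comm (s := range 429) (t := range 429)
      (f := fun k i => ∑ j ∈ range 429, ((Le cols i k : ℝ) * (Le cols j k : ℝ)) * (p i * p j))]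
    apply Finset.sum_congr rfl
    intro i _
    rw [Finset.sum_comm (s := range 429) (t := range 429)
      (f := fun k j => ((Le cols i k : ℝ) * (Le cols j k : ℝ)) * (p i * p j))]
    apply Finset.sum_congr rfl
    intro j _
    rw [← Finset.sum_mul]
    unfold GG
    push_cast
    rfl
  rw [e]
  exact Finset.sum_nonneg fun k _ => sq_nonneg _

theorem quad_lower (N : ℕ → ℕ → ℤ) (cols : List ℕ) (p : ℕ → ℝ)
    (h : ∀ i < 429, ∀ j < 429, |(SB : ℤ) * N i j - GG cols i j| ≤ EB) :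
    -(3432 * ∑ i ∈ range 429, p i ^ 2) ≤ ∑ i ∈ range 429, ∑ j ∈ range 429, (N i j : ℝ) * (p i * p j) := by
  have hG := GG_nonneg cols p
  have h1 : ∀ i ∈ range 429, ∀ j ∈ range 429,
      (GG cols i j : ℝ) * (p i * p j) - 8388608 * ((p i ^ 2 + p j ^ 2) / 2)
        ≤ 1048576 * ((N i j : ℝ) * (p i * p j)) := by
    intro i hi j hj
    have h2 := h i (mem_range.mp hi) j (mem_range.mp hj)
    have h3 : |(1048576 : ℝ) * (N i j : ℝ) - (GG cols i j : ℝ)| ≤ 8388608 := by
      have e1 : ((1048576 : ℝ) * (N i j : ℝ) - (GG cols i j : ℝ)) = (((SB : ℤ) * N i j - GG cols i j : ℤ) : ℝ) := by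
        unfold SB; push_cast; ring
      have e2 : (8388608 : ℝ) = (((EB : ℕ) : ℤ) : ℝ) := by unfold EB; norm_num
      rw [e1, e2, ← Int.cast_abs]
      exact Int.cast_le.mpr h2
    have h4 : |p i * p j| ≤ (p i ^ 2 + p j ^ 2) / 2 := by
      rw [abs_le]
      constructor <;> nlinarith [sq_nonneg (p i + p j), sq_nonneg (p i - p j)]
    have h5 : |((1048576 : ℝ) * (N i j : ℝ) - (GG cols i j : ℝ)) * (p i * p j)|
        ≤ 8388608 * ((p i ^ 2 + p j ^ 2) / 2) := by
      rw [abs_mul]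
      exact mul_le_mul h3 h4 (abs_nonneg _) (by norm_num)
    have h6 := neg_le_of_abs_le h5
    linarith
  have h7 : ∑ i ∈ range 429, ∑ j ∈ range 429,
      ((GG cols i j : ℝ) * (p i * p j) - 8388608 * ((p i ^ 2 + p j ^ 2) / 2))
      ≤ ∑ i ∈ range 429, ∑ j ∈ range 429, 1048576 * ((N i j : ℝ) * (p i * p j)) :=
    Finset.sum_le_sum fun i hi => Finset.sum_le_sum fun j hj => h1 i hi j hj
  have h8 : ∑ i ∈ range 429, ∑ j ∈ range 429, 1048576 * ((N i j : ℝ) * (p i * p j))
      = 1048576 * ∑ i ∈ range 429, ∑ j ∈ range 429, (N i j : ℝ) * (p i * p j) := by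
    rw [Finset.mul_sum]
    apply Finset.sum_congr rfl
    intro i _
    rw [Finset.mul_sum]
  have h9 : ∑ i ∈ range 429, ∑ j ∈ range 429,
      ((GG cols i j : ℝ) * (p i * p j) - 8388608 * ((p i ^ 2 + p j ^ 2) / 2))
      = ∑ i ∈ range 429, ∑ j ∈ range 429, (GG cols i j : ℝ) * (p i * p j)
        - 8388608 * (429 * ∑ i ∈ range 429, p i ^ 2) := by
    have e1 : ∀ i ∈ range 429, ∑ j ∈ range 429,
        ((GG cols i j : ℝ) * (p i * p j) - 8388608 * ((p i ^ 2 + p j ^ 2) / 2))
        = ∑ j ∈ range 429, (GG cols i j : ℝ) * (p i * p j)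
          - (4194304 * 429 * p i ^ 2 + 4194304 * ∑ j ∈ range 429, p j ^ 2) := by
      intro i _
      rw [Finset.sum_sub_distrib]
      congr 1
      have e2 : ∀ j ∈ range 429, 8388608 * ((p i ^ 2 + p j ^ 2) / 2) = 4194304 * p i ^ 2 + 4194304 * p j ^ 2 := by
        intro j _; ring
      rw [Finset.sum_congr rfl e2, Finset.sum_add_distrib, Finset.sum_const, Finset.card_range,
        ← Finset.mul_sum, nsmul_eq_mul]
      push_cast
      ring
    rw [Finset.sum_congr rfl e1, Finset.sum_sub_distrib, Finset.sum_add_distrib, ← Finset.mul_sum,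
      Finset.sum_const, Finset.card_range, nsmul_eq_mul]
    push_cast
    ring
  rw [h8, h9] at h7
  linarith

include hy in
theorem sum_norm_ge : ∑ i ∈ range 429, pp y i ^ 2 ≤ ∑ i ∈ range 429, ‖y i‖ ^ 2 := by
  have h1 : ∀ i ∈ range 429, (pp y i ^ 2 + pp y (iv i) ^ 2) / 2 ≤ ‖y i‖ ^ 2 := by
    intro i hi
    have hi' := mem_range.mp hi
    by_cases h : iv i = i
    · rw [norm_y_self y hy i hi' h, h]
      linarith
    · rw [norm_y_ne y hy i hi' h]
      nlinarith [sq_nonneg (pp y i - pp y (iv i))]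
  have h2 := Finset.sum_le_sum h1
  have h3 : ∑ i ∈ range 429, (pp y i ^ 2 + pp y (iv i) ^ 2) / 2 = ∑ i ∈ range 429, pp y i ^ 2 := by
    have e1 : ∀ i ∈ range 429, (pp y i ^ 2 + pp y (iv i) ^ 2) / 2
        = (1 / 2) * pp y i ^ 2 + (1 / 2) * pp y (iv i) ^ 2 := by
      intro i _; ring
    rw [Finset.sum_congr rfl e1, Finset.sum_add_distrib, ← Finset.mul_sum, ← Finset.mul_sum,
      sum_iv (fun i => pp y i ^ 2)]
    ring
  rw [h3] at h2
  exact h2

include hy in
theorem Qh_real_nonneg (u : ℕ) (cols : List ℕ)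
    (h : ∀ i < 429, ∀ j < 429, |(SB : ℤ) * NN u i j - GG cols i j| ≤ EB) :
    0 ≤ Qh 2683 429 cl3 dm3 wR vR (dec u) y := by
  have h1 := quad_lower (NN u) cols (pp y) h
  have h2 := two_Qh y hy u
  have h3 := sum_norm_ge y hy
  rw [← h2] at h1
  unfold Qh
  have e : ∑ i ∈ range 429, vR i * ‖y i‖ ^ 2
      = ∑ i ∈ range 429, (vN i : ℝ) * ‖y i‖ ^ 2 - 1716 * ∑ i ∈ range 429, ‖y i‖ ^ 2 := by
    rw [Finset.mul_sum, ← Finset.sum_sub_distrib]
    apply Finset.sum_congr rfl
    intro i _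
    unfold vR
    ring
  rw [e]
  linarith

end real

structure SgnFacts (t : ℕ) : Prop where
  lt : sg0 t < 2683
  inv : sg0 (sg0 t) = t
  w : wN (sg0 t) = wN t
  a0 : t0 (sg0 t) = iv (t0 t)
  a1 : t1 (sg0 t) = iv (t1 t)
  a2 : t2 (sg0 t) = iv (t2 t)

theorem sgn (t : ℕ) (ht : t < 2683) : SgnFacts t := by
  have h := allN_spec _ _ fsn_all t ht
  obtain ⟨h1, h⟩ := bAnd_spec h
  obtain ⟨h2, h⟩ := bAnd_spec h
  obtain ⟨h3, h⟩ := bAnd_spec h
  obtain ⟨h4, h⟩ := bAnd_spec h
  obtain ⟨h5, h6⟩ := bAnd_spec h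
  have h1' := ble_iff.mp h1
  exact ⟨by omega, beq_iff.mp h2, beq_iff.mp h3, beq_iff.mp h4, beq_iff.mp h5, beq_iff.mp h6⟩

theorem dec_de_iv (q : ℕ) (hq : q < 429) : dec (de (iv q)) = -dec (de q) := by
  rw [(cls q hq).deiv, dec_negc]

theorem cl3_mem : ∀ t ∈ range 2683, ∀ r, cl3 t r ∈ range 429 :=
  fun t ht r => mem_range.mpr (cl3_lt t (mem_range.mp ht) r)

/-- nonnegativity of a Fourier block from the row estimates -/
theorem Qh_block (u : ℕ) (cols : List ℕ)
    (h : ∀ i < 429, ∀ j < 429, |(SB : ℤ) * NN u i j - GG cols i j| ≤ EB) (y : ℕ → ℂ) :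
    0 ≤ Qh 2683 429 cl3 dm3 wR vR (dec u) y := by
  refine Qh_nonneg_of_real 2683 429 cl3 dm3 wR vR (dec u) iv sg0 cl3_mem ?_ ?_ ?_ ?_ ?_ ?_ ?_ ?_ y
  · intro t ht; exact mem_range.mpr (sgn t (mem_range.mp ht)).lt
  · intro t ht; exact (sgn t (mem_range.mp ht)).inv
  · intro t ht; exact mem_range.mpr (cls t (mem_range.mp ht)).ivlt
  · intro t ht; exact (cls t (mem_range.mp ht)).iviv
  · intro t ht
    unfold wR
    rw [(sgn t (mem_range.mp ht)).w]
  · intro t ht
    unfold vR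
    rw [(cls t (mem_range.mp ht)).viv]
  · intro t ht
    have ht' := mem_range.mp ht
    have S := sgn t ht'
    have T := tri t ht'
    refine ⟨0, Equiv.refl _, fun r => ?_⟩
    rw [Equiv.refl_apply, add_zero]
    fin_cases r
    · exact ⟨S.a0, by
        show dec (de (t0 (sg0 t))) = -dec (de (t0 t))
        rw [S.a0, dec_de_iv _ T.l0]⟩
    · exact ⟨S.a1, by
        show dec (de (t1 (sg0 t))) = -dec (de (t1 t))
        rw [S.a1, dec_de_iv _ T.l1]⟩
    · exact ⟨S.a2, by
        show dec (de (t0 (sg0 t))) + dec (de (t1 (sg0 t))) = -(dec (de (t0 t)) + dec (de (t1 t)))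
        rw [S.a0, S.a1, dec_de_iv _ T.l0, dec_de_iv _ T.l1, neg_add]⟩
  · intro y hy
    exact Qh_real_nonneg y hy u cols h

/-- the block from the kernel checks -/
theorem Qh_of_checks (u : ℕ) (cols : List ℕ) (hlen : cols.length = 429)
    (hok : okCols (fullc cols 0) = true)
    (hrow : ∀ i < 429, okRow u (fullc cols 0) i (∑ m ∈ range (i + 1), col cols m) = true)
    (y : ℕ → ℂ) : 0 ≤ Qh 2683 429 cl3 dm3 wR vR (dec u) y :=
  Qh_block u cols (fun i hi => row_fact cols hlen hok u i hi (hrow i hi)) y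

end Pool.Agent.Helper25.Folk
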