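import Pool.Agent.Helper25.Folk.Data

namespace Pool.Agent.Helper25.Folk

def XB : Nat := 72057594037927936
def OB : Nat := 4194304
def SB : Nat := 1048576
def EB : Nat := 8388608

/-- conditional by the recursor -/
noncomputable def bc (c : Bool) (a b : Nat) : Nat := Bool.rec b a c

def oneN (n : Nat) : Nat := Nat.div (Nat.sub (Nat.pow XB n) 1) (Nat.sub XB 1)
def maskE : Nat := Nat.mul (Nat.sub XB 16777216) (oneN 429)
def maskC : Nat := Nat.mul (Nat.sub XB 8388608) (oneN 429)

/-- left fold by the recursor -/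
noncomputable def lfold {α β : Type} (f : β → α → β) (l : List α) : β → β :=
  List.rec (fun b => b) (fun a _ ih b => ih (f b a)) l

noncomputable def fullc (l : List Nat) : Nat → List Nat :=
  List.rec (fun _ => []) (fun v _ ih k =>
    Nat.add (Nat.mul OB (oneN k)) (Nat.mul (Nat.pow XB k) v) :: ih (Nat.succ k)) l

noncomputable def okCols (l : List Nat) : Bool :=
  List.rec true (fun c _ ih => cond (Nat.beq (Nat.land c maskC) 0)
    (cond (Nat.ble (Nat.succ c) (Nat.pow XB 429)) ih false) false) l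

noncomputable def rowG (sh : Nat) (n : Nat) : List Nat → Nat → Nat :=
  Nat.rec (fun _ acc => acc) (fun _ ih l => List.rec (fun acc => acc)
    (fun c cs _ acc => ih cs (Nat.add acc (Nat.mul (Nat.mod (Nat.shiftRight c sh) XB) c))) l) n

/-- low and high variable of an edge class -/
noncomputable def lov (j : Nat) : Nat := bc (Nat.ble j (iv j)) j (iv j)
noncomputable def hiv (j : Nat) : Nat := bc (Nat.ble j (iv j)) (iv j) j
/-- exponent of the high variable if the low one has exponent `e` -/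
noncomputable def hie (j e : Nat) : Nat := Nat.mod (Nat.add e (bc (Nat.ble j (iv j)) 1 2)) 3
/-- contribution of one edge to the indicator of exponent `c` -/
noncomputable def eI (c j e : Nat) : Nat :=
  Nat.add (bc (Nat.beq e c) (Nat.pow XB (lov j)) 0)
    (bc (Nat.beq (iv j) j) 0 (bc (Nat.beq (hie j e) c) (Nat.pow XB (hiv j)) 0))
noncomputable def eJ (j : Nat) : Nat :=
  Nat.add (Nat.pow XB (lov j)) (bc (Nat.beq (iv j) j) 0 (Nat.pow XB (hiv j)))
/-- three times weighted indicator -/
noncomputable def KI (u t c : Nat) : Nat :=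
  Nat.mul (Nat.mul 3 (wN t)) (Nat.add (eI c (t0 t) (e0 u t)) (Nat.add (eI c (t1 t) (e1 u t)) (eI c (t2 t) (e2 u t))))
noncomputable def KJ (t : Nat) : Nat := Nat.mul (wN t) (Nat.add (eJ (t0 t)) (Nat.add (eJ (t1 t)) (eJ (t2 t))))

noncomputable def sel (c : Nat) (a b d : Nat) : Nat :=
  bc (Nat.beq c 0) a (bc (Nat.beq c 1) b d)

/-- contribution of the edge class `j` (exponent `e`) of `t` to row `i` -/
noncomputable def cP (u t i j e : Nat) : Nat :=
  bc (Nat.beq (lov j) i) (sel e (KI u t 0) (KI u t 1) (KI u t 2))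
    (bc (Nat.beq (hiv j) i) (sel (hie j e) (KI u t 0) (KI u t 1) (KI u t 2)) 0)
noncomputable def tP (u t i : Nat) : Nat :=
  Nat.add (cP u t i (t0 t) (e0 u t)) (Nat.add (cP u t i (t1 t) (e1 u t)) (cP u t i (t2 t) (e2 u t)))
noncomputable def cM (t i j : Nat) : Nat :=
  bc (Nat.beq (lov j) i) (KJ t) (bc (Nat.beq (hiv j) i) (KJ t) 0)
noncomputable def tM (t i : Nat) : Nat :=
  Nat.add (cM t i (t0 t)) (Nat.add (cM t i (t1 t)) (cM t i (t2 t)))

noncomputable def unp2 (n : Nat) : Nat → List Nat :=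
  Nat.rec (fun _ => []) (fun _ ih r => Bool.rec (Nat.sub (Nat.mod r 4096) 1 :: ih (Nat.div r 4096)) []
      (Nat.beq (Nat.mod r 4096) 0)) n
noncomputable def rowT2 (i : Nat) : List Nat :=
  unp2 48 (Nat.mod (Nat.shiftRight RTB (Nat.mul 576 i)) (Nat.pow 2 576))

noncomputable def rowP (u i : Nat) (l : List Nat) : Nat := lfold (fun acc t => Nat.add acc (tP u t i)) l 0
noncomputable def rowM (i : Nat) (l : List Nat) : Nat := lfold (fun acc t => Nat.add acc (tM t i)) l 0
noncomputable def rowW (l : List Nat) : Nat := lfold (fun acc t => Nat.add acc (wN t)) l 0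

noncomputable def vOff (i : Nat) : Nat := bc (Nat.beq (iv i) i) 0 (Nat.mul (Nat.mul 2 (vN i)) (Nat.pow XB (iv i)))
noncomputable def vDiag (i : Nat) : Nat :=
  Nat.mul (Nat.mul (bc (Nat.beq (iv i) i) 2 4) (vN i)) (Nat.pow XB i)

noncomputable def lhs (cs : List Nat) (i : Nat) : Nat :=
  Nat.add (rowG (Nat.mul 56 i) (Nat.succ i) cs 0)
    (Nat.add (Nat.mul (Nat.add (Nat.mul (Nat.succ i) (Nat.mul OB OB)) EB) (oneN 429))
      (Nat.mul SB (Nat.add (rowM i (rowT2 i)) (vDiag i))))

noncomputable def rhs (u : Nat) (i RA : Nat) : Nat :=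
  Nat.add (Nat.mul (Nat.mul OB (Nat.mod (Nat.shiftRight RA (Nat.mul 56 i)) XB)) (oneN 429))
    (Nat.add (Nat.mul OB RA)
      (Nat.mul SB (Nat.add (rowP u i (rowT2 i)) (vOff i))))

noncomputable def okRow (u : Nat) (cs : List Nat) (i RA : Nat) : Bool :=
  cond (Nat.ble (rhs u i RA) (lhs cs i))
    (cond (Nat.beq (Nat.land (Nat.sub (lhs cs i) (rhs u i RA)) maskE) 0)
      (cond (Nat.ble (Nat.succ (Nat.sub (lhs cs i) (rhs u i RA))) (Nat.pow XB 429))
        (Nat.ble (rowW (rowT2 i)) 33554432) false) false) false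

noncomputable def okRows (u : Nat) (cs : List Nat) (n : Nat) : List Nat → Nat → Nat → Bool :=
  Nat.rec (fun _ _ _ => true) (fun _ ih l => List.rec (fun _ _ => false)
    (fun c rest _ i RA => cond (okRow u cs i (Nat.add RA c)) (ih rest (Nat.succ i) (Nat.add RA c)) false) l) n

noncomputable def dropL (n : Nat) : List Nat → List Nat :=
  Nat.rec (fun l => l) (fun _ ih l => List.rec [] (fun _ cs _ => ih cs) l) n
noncomputable def sumT (n : Nat) : List Nat → Nat → Nat :=
  Nat.rec (fun _ acc => acc) (fun _ ih l => List.rec (fun acc => acc) (fun c cs _ acc => ih cs (Nat.add acc c)) l) n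

noncomputable def okRange (u : Nat) (cols : List Nat) (i0 n : Nat) : Bool :=
  okRows u (fullc cols 0) n (dropL i0 (fullc cols 0)) i0 (sumT i0 (fullc cols 0) 0)

end Pool.Agent.Helper25.Folk
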