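import Pool.Agent.Helper25.Folk.Chk

/-!
Kernel checks of the combinatorial data: opposite classes, triangles, row lists, the generator.
-/

namespace Pool.Agent.Helper25.Folk

set_option maxRecDepth 100000

noncomputable def allN (f : Nat → Bool) (n : Nat) : Bool :=
  Nat.rec true (fun k ih => cond (f k) ih false) n

theorem allN_spec (f : Nat → Bool) : ∀ n, allN f n = true → ∀ k, k < n → f k = true
  | 0, _, k, hk => absurd hk (Nat.not_lt_zero k)
  | n + 1, h, k, hk => by
    have e : allN f (n + 1) = cond (f n) (allN f n) false := rfl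
    rw [e] at h
    cases h1 : f n with
    | false => rw [h1, cond_false] at h; exact absurd h Bool.false_ne_true
    | true =>
      rw [h1, cond_true] at h
      rcases Nat.lt_succ_iff_lt_or_eq.mp hk with h2 | h2
      · exact allN_spec f n h k h2
      · rw [h2]; exact h1

/-- conjunction -/
def bAnd (a b : Bool) : Bool := cond a b false

theorem bAnd_spec {a b : Bool} (h : bAnd a b = true) : a = true ∧ b = true := by
  cases a <;> cases b <;> first | exact ⟨rfl, rfl⟩ | exact absurd h (by decide)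

def fcls (q : Nat) : Bool :=
  bAnd (Nat.ble (Nat.succ (iv q)) 429) (bAnd (Nat.beq (iv (iv q)) q) (bAnd (Nat.beq (vN (iv q)) (vN q))
    (bAnd (Nat.beq (pa (iv q)) (pa q)) (bAnd (Nat.beq (pb (iv q)) (pb q))
      (bAnd (Nat.beq (de (iv q)) (negc (de q))) (bAnd (Nat.ble (Nat.succ (pa q)) (pb q))
        (bAnd (Nat.ble (pb q) 6) (bAnd (Nat.ble (de q) 80) (Nat.ble 1716 (vN q))))))))))

theorem fcls_all : allN fcls 429 = true := by decide +kernel

def ftri (t : Nat) : Bool :=
  bAnd (Nat.ble (t0 t) 428) (bAnd (Nat.ble (t1 t) 428) (bAnd (Nat.ble (t2 t) 428)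
    (bAnd (Nat.beq (pa (t0 t)) (pa (t1 t))) (bAnd (Nat.beq (pb (t0 t)) (pa (t2 t)))
      (bAnd (Nat.beq (pb (t1 t)) (pb (t2 t)))
        (Nat.beq (de (t2 t)) (addc (de (t1 t)) (negc (de (t0 t))))))))))

theorem ftri_all : allN ftri 2683 = true := by decide +kernel

/-- membership in a list -/
noncomputable def memL (t : Nat) (l : List Nat) : Bool :=
  List.rec false (fun a _ ih => cond (Nat.beq a t) true ih) l

/-- strictly increasing, all entries `≥ m` and `< 2683` -/
noncomputable def incL (l : List Nat) : Nat → Bool :=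
  List.rec (fun _ => true) (fun a _ ih m => bAnd (Nat.ble m a) (bAnd (Nat.ble a 2682) (ih (Nat.succ a)))) l

theorem inc_all : allN (fun i => incL (rowT2 i) 0) 429 = true := by decide +kernel

noncomputable def fmem (t : Nat) : Bool :=
  bAnd (memL t (rowT2 (lov (t0 t)))) (bAnd (memL t (rowT2 (hiv (t0 t))))
    (bAnd (memL t (rowT2 (lov (t1 t)))) (bAnd (memL t (rowT2 (hiv (t1 t))))
      (bAnd (memL t (rowT2 (lov (t2 t)))) (memL t (rowT2 (hiv (t2 t))))))))

theorem fmem_all : allN fmem 2683 = true := by decide +kernel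

/-! the generator -/

def pi1 (i : Nat) : Nat := Nat.mod (Nat.shiftRight PIB (Nat.mul 9 i)) 512
def pi2 (i : Nat) : Nat := Nat.mod (Nat.shiftRight PJB (Nat.mul 9 i)) 512
def sg1 (i : Nat) : Nat := Nat.mod (Nat.shiftRight SGB (Nat.mul 12 i)) 4096
def sg2 (i : Nat) : Nat := Nat.mod (Nat.shiftRight SHB (Nat.mul 12 i)) 4096
def sg0 (i : Nat) : Nat := Nat.mod (Nat.shiftRight SNB (Nat.mul 12 i)) 4096

/-- scalar times vector -/
noncomputable def smc (d x : Nat) : Nat := bc (Nat.beq d 0) 0 (bc (Nat.beq d 1) x (addc x x))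

/-- the linear map with images `4, 12, 36, 31` of the basis -/
noncomputable def alc (x : Nat) : Nat :=
  addc (smc (Nat.mod x 3) 4) (addc (smc (Nat.mod (Nat.div x 3) 3) 12)
    (addc (smc (Nat.mod (Nat.div x 9) 3) 36) (smc (Nat.mod (Nat.div x 27) 3) 31)))

noncomputable def fpi (q : Nat) : Bool :=
  bAnd (Nat.ble (pi1 q) 428) (bAnd (Nat.ble (pi2 q) 428) (bAnd (Nat.beq (pi2 (pi1 q)) q)
    (bAnd (Nat.beq (pi1 (pi2 q)) q) (bAnd (Nat.beq (vN (pi1 q)) (vN q))
      (Nat.beq (de (pi1 q)) (alc (de q)))))))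

theorem fpi_all : allN fpi 429 = true := by decide +kernel

noncomputable def fsg (t : Nat) : Bool :=
  bAnd (Nat.ble (sg1 t) 2682) (bAnd (Nat.ble (sg2 t) 2682) (bAnd (Nat.beq (sg2 (sg1 t)) t)
    (bAnd (Nat.beq (sg1 (sg2 t)) t) (bAnd (Nat.beq (wN (sg1 t)) (wN t))
      (bAnd (Nat.beq (t0 (sg1 t)) (pi1 (t0 t))) (bAnd (Nat.beq (t1 (sg1 t)) (pi1 (t1 t)))
        (Nat.beq (t2 (sg1 t)) (pi1 (t2 t)))))))))

theorem fsg_all : allN fsg 2683 = true := by decide +kernel

noncomputable def fsn (t : Nat) : Bool :=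
  bAnd (Nat.ble (sg0 t) 2682) (bAnd (Nat.beq (sg0 (sg0 t)) t) (bAnd (Nat.beq (wN (sg0 t)) (wN t))
      (bAnd (Nat.beq (t0 (sg0 t)) (iv (t0 t))) (bAnd (Nat.beq (t1 (sg0 t)) (iv (t1 t)))
        (Nat.beq (t2 (sg0 t)) (iv (t2 t)))))))

theorem fsn_all : allN fsn 2683 = true := by decide +kernel

/-- the action on characters -/
def alT (u : Nat) : Nat :=
  Nat.add (dotc u 4) (Nat.add (Nat.mul 3 (dotc u 12)) (Nat.add (Nat.mul 9 (dotc u 36)) (Nat.mul 27 (dotc u 31))))

noncomputable def itT (u : Nat) (n : Nat) : Nat := Nat.rec u (fun _ r => alT r) n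

/-- every nonzero character code is in one of the four orbits -/
noncomputable def frep (u : Nat) : Bool :=
  cond (Nat.beq u 0) true
    (cond (allN (fun k => cond (Nat.beq (itT 1 k) u) false true) 20)
      (cond (allN (fun k => cond (Nat.beq (itT 3 k) u) false true) 20)
        (cond (allN (fun k => cond (Nat.beq (itT 9 k) u) false true) 20)
          (cond (allN (fun k => cond (Nat.beq (itT 11 k) u) false true) 20) false true) true) true) true)

theorem frep_all : allN frep 81 = true := by decide +kernel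

noncomputable def sumN (f : Nat → Nat) (n : Nat) : Nat := Nat.rec 0 (fun k ih => Nat.add ih (f k)) n

theorem sum_vw : Nat.ble (Nat.succ (Nat.add (sumN wN 2683) (Nat.mul 1716 429))) (sumN vN 429) = true := by
  decide +kernel

end Pool.Agent.Helper25.Folk
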