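import Pool.Agent.Helper25.Folk.Row
import Pool.Agent.Helper25.Folk.Sym

/-!
Occurrences of the variables in the triangles, and the rows of the Gram matrix.
-/

namespace Pool.Agent.Helper25.Folk

open Finset

set_option exponentiation.threshold 500

/-! ### facts about the data -/

theorem beq_iff {a b : ℕ} : Nat.beq a b = true ↔ a = b :=
  ⟨Nat.eq_of_beq_eq_true, fun h => by rw [h]; exact Nat.beq_refl b⟩

theorem ble_iff {a b : ℕ} : Nat.ble a b = true ↔ a ≤ b :=
  ⟨Nat.le_of_ble_eq_true, Nat.ble_eq_true_of_le⟩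

theorem bc_eq (c : Bool) (a b : ℕ) : bc c a b = if c = true then a else b := by
  cases c <;> rfl

theorem bc_beq (x y a b : ℕ) : bc (Nat.beq x y) a b = if x = y then a else b := by
  rw [bc_eq]
  by_cases h : x = y
  · rw [if_pos (beq_iff.mpr h), if_pos h]
  · rw [if_neg (fun h2 => h (beq_iff.mp h2)), if_neg h]

theorem bc_ble (x y a b : ℕ) : bc (Nat.ble x y) a b = if x ≤ y then a else b := by
  rw [bc_eq]
  by_cases h : x ≤ y
  · rw [if_pos (ble_iff.mpr h), if_pos h]
  · rw [if_neg (fun h2 => h (ble_iff.mp h2)), if_neg h]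

structure ClsFacts (q : ℕ) : Prop where
  ivlt : iv q < 429
  iviv : iv (iv q) = q
  viv : vN (iv q) = vN q
  paiv : pa (iv q) = pa q
  pbiv : pb (iv q) = pb q
  deiv : de (iv q) = negc (de q)
  palt : pa q < pb q
  pblt : pb q < 7
  delt : de q < 81
  vge : 1716 ≤ vN q

theorem cls (q : ℕ) (hq : q < 429) : ClsFacts q := by
  have h := allN_spec _ _ fcls_all q hq
  obtain ⟨h1, h⟩ := bAnd_spec h
  obtain ⟨h2, h⟩ := bAnd_spec h
  obtain ⟨h3, h⟩ := bAnd_spec h
  obtain ⟨h4, h⟩ := bAnd_spec h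
  obtain ⟨h5, h⟩ := bAnd_spec h
  obtain ⟨h6, h⟩ := bAnd_spec h
  obtain ⟨h7, h⟩ := bAnd_spec h
  obtain ⟨h8, h⟩ := bAnd_spec h
  obtain ⟨h9, h10⟩ := bAnd_spec h
  have h8' := ble_iff.mp h8
  have h9' := ble_iff.mp h9
  exact ⟨ble_iff.mp h1, beq_iff.mp h2, beq_iff.mp h3, beq_iff.mp h4, beq_iff.mp h5, beq_iff.mp h6,
    ble_iff.mp h7, by omega, by omega, ble_iff.mp h10⟩

structure TriFacts (t : ℕ) : Prop where
  l0 : t0 t < 429
  l1 : t1 t < 429
  l2 : t2 t < 429
  a01 : pa (t0 t) = pa (t1 t)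
  b02 : pb (t0 t) = pa (t2 t)
  b12 : pb (t1 t) = pb (t2 t)
  de2 : de (t2 t) = addc (de (t1 t)) (negc (de (t0 t)))

theorem tri (t : ℕ) (ht : t < 2683) : TriFacts t := by
  have h := allN_spec _ _ ftri_all t ht
  obtain ⟨h1, h⟩ := bAnd_spec h
  obtain ⟨h2, h⟩ := bAnd_spec h
  obtain ⟨h3, h⟩ := bAnd_spec h
  obtain ⟨h4, h⟩ := bAnd_spec h
  obtain ⟨h5, h⟩ := bAnd_spec h
  obtain ⟨h6, h7⟩ := bAnd_spec h
  have h1' := ble_iff.mp h1
  have h2' := ble_iff.mp h2
  have h3' := ble_iff.mp h3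
  exact ⟨by omega, by omega, by omega, beq_iff.mp h4, beq_iff.mp h5, beq_iff.mp h6, beq_iff.mp h7⟩

theorem lov_eq (q : ℕ) : lov q = if q ≤ iv q then q else iv q := bc_ble _ _ _ _
theorem hiv_eq (q : ℕ) : hiv q = if q ≤ iv q then iv q else q := bc_ble _ _ _ _

theorem lov_lt {q : ℕ} (hq : q < 429) : lov q < 429 := by
  rw [lov_eq]; have := (cls q hq).ivlt; split_ifs <;> omega
theorem hiv_lt {q : ℕ} (hq : q < 429) : hiv q < 429 := by
  rw [hiv_eq]; have := (cls q hq).ivlt; split_ifs <;> omega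

theorem lov_eq_hiv_iff (q : ℕ) : lov q = hiv q ↔ iv q = q := by
  rw [lov_eq, hiv_eq]; split_ifs <;> constructor <;> omega

theorem hie_lt (q e : ℕ) : hie q e < 3 := Nat.mod_lt _ (by norm_num)
theorem e0_lt (u t : ℕ) : e0 u t < 3 := Nat.mod_lt _ (by norm_num)
theorem e1_lt (u t : ℕ) : e1 u t < 3 := Nat.mod_lt _ (by norm_num)
theorem e2_lt (u t : ℕ) : e2 u t < 3 := Nat.mod_lt _ (by norm_num)

/-! ### occurrences -/

/-- number of occurrences of variable `v` with exponent `c` in the edge class `q` with exponent `e` -/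
noncomputable def occ (q e v c : ℕ) : ℕ :=
  (if e = c ∧ lov q = v then 1 else 0) + (if hie q e = c ∧ hiv q = v ∧ iv q ≠ q then 1 else 0)

/-- total number of occurrences -/
noncomputable def oj (q v : ℕ) : ℕ :=
  (if lov q = v then 1 else 0) + (if hiv q = v ∧ iv q ≠ q then 1 else 0)

theorem sum_ite_pow (a : ℕ) (ha : a < 429) :
    ∑ v ∈ range 429, (if a = v then 1 else 0) * XB ^ v = XB ^ a := by
  rw [Finset.sum_eq_single a]
  · simp
  · intro b _ hb; rw [if_neg (Ne.symm hb)]; simp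
  · intro h; exact absurd (Finset.mem_range.mpr ha) h

theorem eI_eq (c q e : ℕ) (hq : q < 429) :
    eI c q e = ∑ v ∈ range 429, occ q e v c * XB ^ v := by
  have h1 := sum_ite_pow (lov q) (lov_lt hq)
  have h2 := sum_ite_pow (hiv q) (hiv_lt hq)
  have e1 : eI c q e = (if e = c then Nat.pow XB (lov q) else 0)
      + (if iv q = q then 0 else (if hie q e = c then Nat.pow XB (hiv q) else 0)) := by
    rw [← bc_beq, ← bc_beq (hie q e), ← bc_beq (iv q)]
    rfl
  have e2 : ∀ v, occ q e v c * XB ^ v = (if e = c ∧ lov q = v then 1 else 0) * XB ^ v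
      + (if hie q e = c ∧ hiv q = v ∧ iv q ≠ q then 1 else 0) * XB ^ v := by
    intro v; unfold occ; rw [add_mul]
  rw [e1, Finset.sum_congr rfl (fun v _ => e2 v), Finset.sum_add_distrib]
  have A : (if e = c then Nat.pow XB (lov q) else 0)
      = ∑ v ∈ range 429, (if e = c ∧ lov q = v then 1 else 0) * XB ^ v := by
    by_cases h : e = c
    · rw [if_pos h]
      simp only [h, true_and]
      exact h1.symm
    · rw [if_neg h]
      simp [h]
  have B : (if iv q = q then 0 else (if hie q e = c then Nat.pow XB (hiv q) else 0))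
      = ∑ v ∈ range 429, (if hie q e = c ∧ hiv q = v ∧ iv q ≠ q then 1 else 0) * XB ^ v := by
    by_cases h : iv q = q
    · simp [h]
    · rw [if_neg h]
      by_cases h3 : hie q e = c
      · rw [if_pos h3]
        simp only [h3, true_and, h, ne_eq, not_false_eq_true, and_true]
        exact h2.symm
      · rw [if_neg h3]
        simp [h3]
  rw [A, B]

theorem eJ_eq (q : ℕ) (hq : q < 429) : eJ q = ∑ v ∈ range 429, oj q v * XB ^ v := by
  have h1 := sum_ite_pow (lov q) (lov_lt hq)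
  have h2 := sum_ite_pow (hiv q) (hiv_lt hq)
  have e1 : eJ q = XB ^ (lov q) + (if iv q = q then 0 else Nat.pow XB (hiv q)) := by
    rw [← bc_beq]
    rfl
  have e2 : ∀ v, oj q v * XB ^ v = (if lov q = v then 1 else 0) * XB ^ v
      + (if hiv q = v ∧ iv q ≠ q then 1 else 0) * XB ^ v := by
    intro v; unfold oj; rw [add_mul]
  rw [e1, Finset.sum_congr rfl (fun v _ => e2 v), Finset.sum_add_distrib, h1]
  have B : (if iv q = q then 0 else Nat.pow XB (hiv q))
      = ∑ v ∈ range 429, (if hiv q = v ∧ iv q ≠ q then 1 else 0) * XB ^ v := by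
    by_cases h : iv q = q
    · simp [h]
    · rw [if_neg h]
      simp only [h, ne_eq, not_false_eq_true, and_true]
      exact h2.symm
  rw [B]

theorem sum_occ (q e v : ℕ) (he : e < 3) : occ q e v 0 + occ q e v 1 + occ q e v 2 = oj q v := by
  have h := hie_lt q e
  unfold occ oj
  have h3 : ∀ (x : ℕ) (p : Prop) [Decidable p], x < 3 →
      (if x = 0 ∧ p then 1 else 0) + (if x = 1 ∧ p then 1 else 0) + (if x = 2 ∧ p then 1 else 0)
        = (if p then 1 else 0 : ℕ) := by
    intro x p _ hx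
    by_cases hp : p
    · simp only [hp, and_true, if_true]
      interval_cases x <;> simp
    · simp [hp]
  have a1 := h3 e (lov q = v) he
  have a2 := h3 (hie q e) (hiv q = v ∧ iv q ≠ q) h
  omega

/-- occurrences in a triangle -/
noncomputable def OO (u t v c : ℕ) : ℕ :=
  occ (t0 t) (e0 u t) v c + (occ (t1 t) (e1 u t) v c + occ (t2 t) (e2 u t) v c)

noncomputable def Jt (t v : ℕ) : ℕ := oj (t0 t) v + (oj (t1 t) v + oj (t2 t) v)

theorem sum_OO (u t v : ℕ) : OO u t v 0 + OO u t v 1 + OO u t v 2 = Jt t v := by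
  have h0 := sum_occ (t0 t) (e0 u t) v (e0_lt u t)
  have h1 := sum_occ (t1 t) (e1 u t) v (e1_lt u t)
  have h2 := sum_occ (t2 t) (e2 u t) v (e2_lt u t)
  unfold OO Jt
  omega

theorem KI_eq (u t c : ℕ) (ht : t < 2683) :
    KI u t c = ∑ v ∈ range 429, (3 * wN t * OO u t v c) * XB ^ v := by
  have T := tri t ht
  unfold KI OO
  simp only [Nat.mul_eq, Nat.add_eq]
  rw [eI_eq c _ _ T.l0, eI_eq c _ _ T.l1, eI_eq c _ _ T.l2, ← Finset.sum_add_distrib,
    ← Finset.sum_add_distrib, Finset.mul_sum]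
  apply Finset.sum_congr rfl
  intro v _
  ring

theorem KJ_eq (t : ℕ) (ht : t < 2683) : KJ t = ∑ v ∈ range 429, (wN t * Jt t v) * XB ^ v := by
  have T := tri t ht
  unfold KJ Jt
  simp only [Nat.mul_eq, Nat.add_eq]
  rw [eJ_eq _ T.l0, eJ_eq _ T.l1, eJ_eq _ T.l2, ← Finset.sum_add_distrib,
    ← Finset.sum_add_distrib, Finset.mul_sum]
  apply Finset.sum_congr rfl
  intro v _
  ring

theorem cP_eq (u t i q e : ℕ) (he : e < 3) :
    cP u t i q e = occ q e i 0 * KI u t 0 + occ q e i 1 * KI u t 1 + occ q e i 2 * KI u t 2 := by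
  have hh := hie_lt q e
  have hs : ∀ x, x < 3 → sel x (KI u t 0) (KI u t 1) (KI u t 2)
      = (if x = 0 then 1 else 0) * KI u t 0 + (if x = 1 then 1 else 0) * KI u t 1
        + (if x = 2 then 1 else 0) * KI u t 2 := by
    intro x hx
    unfold sel
    rw [bc_beq, bc_beq]
    interval_cases x <;> simp
  unfold cP
  rw [bc_beq, bc_beq, hs e he, hs _ hh]
  unfold occ
  by_cases h1 : lov q = i
  · rw [if_pos h1]
    by_cases h2 : hiv q = i
    · have h3 : iv q = q := (lov_eq_hiv_iff q).mp (h1.trans h2.symm)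
      simp [h1, h3]
    · simp [h1, h2]
  · rw [if_neg h1]
    by_cases h2 : hiv q = i
    · have h3 : iv q ≠ q := fun h => h1 (((lov_eq_hiv_iff q).mpr h).trans h2)
      simp [h1, h2, h3]
    · simp [h1, h2]

theorem cM_eq (t i q : ℕ) : cM t i q = oj q i * KJ t := by
  unfold cM oj
  rw [bc_beq, bc_beq]
  by_cases h1 : lov q = i
  · rw [if_pos h1]
    by_cases h2 : hiv q = i
    · have h3 : iv q = q := (lov_eq_hiv_iff q).mp (h1.trans h2.symm)
      simp [h1, h3]
    · simp [h1, h2]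
  · rw [if_neg h1]
    by_cases h2 : hiv q = i
    · have h3 : iv q ≠ q := fun h => h1 (((lov_eq_hiv_iff q).mpr h).trans h2)
      simp [h1, h2, h3]
    · simp [h1, h2]

/-- coefficient of a triangle in row `i`, column `j`: positive part -/
noncomputable def cfP (u t i j : ℕ) : ℕ :=
  3 * wN t * (OO u t i 0 * OO u t j 0 + OO u t i 1 * OO u t j 1 + OO u t i 2 * OO u t j 2)
noncomputable def cfM (t i j : ℕ) : ℕ := wN t * (Jt t i * Jt t j)

theorem tP_eq (u t i : ℕ) (ht : t < 2683) :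
    tP u t i = ∑ j ∈ range 429, cfP u t i j * XB ^ j := by
  unfold tP
  simp only [Nat.add_eq]
  rw [cP_eq _ _ _ _ _ (e0_lt u t), cP_eq _ _ _ _ _ (e1_lt u t), cP_eq _ _ _ _ _ (e2_lt u t)]
  have e : ∑ j ∈ range 429, cfP u t i j * XB ^ j
      = OO u t i 0 * KI u t 0 + OO u t i 1 * KI u t 1 + OO u t i 2 * KI u t 2 := by
    rw [KI_eq u t 0 ht, KI_eq u t 1 ht, KI_eq u t 2 ht, Finset.mul_sum, Finset.mul_sum,
      Finset.mul_sum, ← Finset.sum_add_distrib, ← Finset.sum_add_distrib]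
    apply Finset.sum_congr rfl
    intro j _
    unfold cfP
    ring
  rw [e]
  unfold OO
  ring

theorem tM_eq (t i : ℕ) (ht : t < 2683) :
    tM t i = ∑ j ∈ range 429, cfM t i j * XB ^ j := by
  unfold tM
  simp only [Nat.add_eq]
  rw [cM_eq, cM_eq, cM_eq]
  have e : ∑ j ∈ range 429, cfM t i j * XB ^ j = Jt t i * KJ t := by
    rw [KJ_eq t ht, Finset.mul_sum]
    apply Finset.sum_congr rfl
    intro j _
    unfold cfM
    ring
  rw [e]
  unfold Jt
  ring

theorem oj_le (q v : ℕ) : oj q v ≤ 2 := by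
  unfold oj; split_ifs <;> omega
theorem Jt_le (t v : ℕ) : Jt t v ≤ 6 := by
  have := oj_le (t0 t) v; have := oj_le (t1 t) v; have := oj_le (t2 t) v
  unfold Jt; omega

theorem cfP_le (u t i j : ℕ) : cfP u t i j ≤ 108 * wN t := by
  have h1 := sum_OO u t i
  have h2 := sum_OO u t j
  have h3 := Jt_le t i
  have h4 := Jt_le t j
  have h5 : OO u t i 0 * OO u t j 0 + OO u t i 1 * OO u t j 1 + OO u t i 2 * OO u t j 2 ≤ 36 := by
    have a0 : OO u t i 0 * OO u t j 0 ≤ OO u t i 0 * 6 := Nat.mul_le_mul_left _ (by omega)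
    have a1 : OO u t i 1 * OO u t j 1 ≤ OO u t i 1 * 6 := Nat.mul_le_mul_left _ (by omega)
    have a2 : OO u t i 2 * OO u t j 2 ≤ OO u t i 2 * 6 := Nat.mul_le_mul_left _ (by omega)
    omega
  unfold cfP
  calc 3 * wN t * _ ≤ 3 * wN t * 36 := Nat.mul_le_mul_left _ h5
    _ = 108 * wN t := by ring

theorem cfM_le (t i j : ℕ) : cfM t i j ≤ 36 * wN t := by
  have h3 := Jt_le t i
  have h4 := Jt_le t j
  unfold cfM
  calc wN t * (Jt t i * Jt t j) ≤ wN t * (6 * 6) := Nat.mul_le_mul_left _ (Nat.mul_le_mul h3 h4)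
    _ = 36 * wN t := by ring

/-! ### row lists -/

theorem memL_spec (t : ℕ) : ∀ l : List ℕ, memL t l = true → t ∈ l
  | [], h => by
    have e : memL t [] = false := rfl
    rw [e] at h; exact absurd h Bool.false_ne_true
  | a :: l, h => by
    have e : memL t (a :: l) = cond (Nat.beq a t) true (memL t l) := rfl
    rw [e] at h
    cases h1 : Nat.beq a t with
    | true => rw [beq_iff.mp h1]; exact List.mem_cons_self
    | false => rw [h1, cond_false] at h; exact List.mem_cons_of_mem _ (memL_spec t l h)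

theorem incL_spec : ∀ (l : List ℕ) (m : ℕ), incL l m = true →
    (∀ a ∈ l, m ≤ a ∧ a < 2683) ∧ l.Nodup
  | [], m, _ => ⟨fun a h => absurd h List.not_mem_nil, List.nodup_nil⟩
  | a :: l, m, h => by
    have e : incL (a :: l) m = bAnd (Nat.ble m a) (bAnd (Nat.ble a 2682) (incL l (Nat.succ a))) := rfl
    rw [e] at h
    obtain ⟨h1, h⟩ := bAnd_spec h
    obtain ⟨h2, h3⟩ := bAnd_spec h
    obtain ⟨h4, h5⟩ := incL_spec l _ h3
    have h1' := ble_iff.mp h1
    have h2' := ble_iff.mp h2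
    refine ⟨?_, ?_⟩
    · intro b hb
      rcases List.mem_cons.mp hb with rfl | hb
      · exact ⟨h1', by omega⟩
      · have := h4 b hb
        exact ⟨by omega, this.2⟩
    · rw [List.nodup_cons]
      refine ⟨?_, h5⟩
      intro hb
      have := h4 a hb
      omega

theorem rowT2_facts (i : ℕ) (hi : i < 429) : (∀ a ∈ rowT2 i, a < 2683) ∧ (rowT2 i).Nodup := by
  have h := incL_spec _ _ (allN_spec _ _ inc_all i hi)
  exact ⟨fun a ha => (h.1 a ha).2, h.2⟩

theorem mem_rowT2 (t i : ℕ) (ht : t < 2683) (h : Jt t i ≠ 0) : t ∈ rowT2 i := by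
  have hm := allN_spec _ _ fmem_all t ht
  obtain ⟨m1, hm⟩ := bAnd_spec hm
  obtain ⟨m2, hm⟩ := bAnd_spec hm
  obtain ⟨m3, hm⟩ := bAnd_spec hm
  obtain ⟨m4, hm⟩ := bAnd_spec hm
  obtain ⟨m5, m6⟩ := bAnd_spec hm
  have key : ∀ q, oj q i ≠ 0 → lov q = i ∨ hiv q = i := by
    intro q hq
    by_contra hcon
    push Not at hcon
    apply hq
    unfold oj
    rw [if_neg hcon.1, if_neg (fun h => hcon.2 h.1)]
  unfold Jt at h
  have : oj (t0 t) i ≠ 0 ∨ oj (t1 t) i ≠ 0 ∨ oj (t2 t) i ≠ 0 := by omega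
  rcases this with h | h | h
  · rcases key _ h with h | h
    · rw [← h]; exact memL_spec _ _ m1
    · rw [← h]; exact memL_spec _ _ m2
  · rcases key _ h with h | h
    · rw [← h]; exact memL_spec _ _ m3
    · rw [← h]; exact memL_spec _ _ m4
  · rcases key _ h with h | h
    · rw [← h]; exact memL_spec _ _ m5
    · rw [← h]; exact memL_spec _ _ m6

theorem sum_rowT2 (i : ℕ) (hi : i < 429) (f : ℕ → ℕ) (hf : ∀ t, t < 2683 → Jt t i = 0 → f t = 0) :
    ((rowT2 i).map f).sum = ∑ t ∈ range 2683, f t := by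
  obtain ⟨h1, h2⟩ := rowT2_facts i hi
  rw [← List.sum_toFinset f h2]
  apply Finset.sum_subset
  · intro t ht
    rw [List.mem_toFinset] at ht
    exact Finset.mem_range.mpr (h1 t ht)
  · intro t ht hnot
    rw [List.mem_toFinset] at hnot
    have ht' := Finset.mem_range.mp ht
    apply hf t ht'
    by_contra h
    exact hnot (mem_rowT2 t i ht' h)

/-! ### the packed rows -/

/-- positive and negative parts of the Gram matrix -/
noncomputable def NP (u i j : ℕ) : ℕ := ∑ t ∈ range 2683, cfP u t i j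
noncomputable def NM (i j : ℕ) : ℕ := ∑ t ∈ range 2683, cfM t i j

theorem cfP_zero (u t i j : ℕ) (h : Jt t i = 0) : cfP u t i j = 0 := by
  have h1 := sum_OO u t i
  rw [h] at h1
  have a0 : OO u t i 0 = 0 := by omega
  have a1 : OO u t i 1 = 0 := by omega
  have a2 : OO u t i 2 = 0 := by omega
  unfold cfP
  rw [a0, a1, a2]; ring

theorem cfM_zero (t i j : ℕ) (h : Jt t i = 0) : cfM t i j = 0 := by
  unfold cfM; rw [h]; ring

theorem list_sum_comm (l : List ℕ) (n : ℕ) (f : ℕ → ℕ → ℕ) :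
    (l.map (fun t => ∑ j ∈ range n, f t j)).sum = ∑ j ∈ range n, (l.map (fun t => f t j)).sum := by
  induction l with
  | nil => simp
  | cons a l ih =>
    simp only [List.map_cons, List.sum_cons]
    rw [ih, ← Finset.sum_add_distrib]

theorem rowP_eq (u i : ℕ) (hi : i < 429) :
    rowP u i (rowT2 i) = ∑ j ∈ range 429, NP u i j * XB ^ j := by
  unfold rowP
  rw [lfold_add, zero_add]
  have e : (rowT2 i).map (fun t => tP u t i)
      = (rowT2 i).map (fun t => ∑ j ∈ range 429, cfP u t i j * XB ^ j) := by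
    apply List.map_congr_left
    intro t ht
    exact tP_eq u t i ((rowT2_facts i hi).1 t ht)
  rw [e, list_sum_comm]
  apply Finset.sum_congr rfl
  intro j _
  rw [sum_rowT2 i hi _ (fun t _ h => by rw [cfP_zero u t i j h]; ring)]
  unfold NP
  rw [Finset.sum_mul]

theorem rowM_eq (i : ℕ) (hi : i < 429) :
    rowM i (rowT2 i) = ∑ j ∈ range 429, NM i j * XB ^ j := by
  unfold rowM
  rw [lfold_add, zero_add]
  have e : (rowT2 i).map (fun t => tM t i)
      = (rowT2 i).map (fun t => ∑ j ∈ range 429, cfM t i j * XB ^ j) := by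
    apply List.map_congr_left
    intro t ht
    exact tM_eq t i ((rowT2_facts i hi).1 t ht)
  rw [e, list_sum_comm]
  apply Finset.sum_congr rfl
  intro j _
  rw [sum_rowT2 i hi _ (fun t _ h => by rw [cfM_zero t i j h]; ring)]
  unfold NM
  rw [Finset.sum_mul]

theorem NP_le (u i j : ℕ) (hi : i < 429) : NP u i j ≤ 108 * rowW (rowT2 i) := by
  unfold NP rowW
  rw [lfold_add, zero_add, ← sum_rowT2 i hi (fun t => cfP u t i j) (fun t _ h => cfP_zero u t i j h)]
  have : ∀ l : List ℕ, (l.map (fun t => cfP u t i j)).sum ≤ 108 * (l.map wN).sum := by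
    intro l
    induction l with
    | nil => simp
    | cons a l ih =>
      simp only [List.map_cons, List.sum_cons]
      have := cfP_le u a i j
      omega
  exact this _

theorem NM_le (i j : ℕ) (hi : i < 429) : NM i j ≤ 36 * rowW (rowT2 i) := by
  unfold NM rowW
  rw [lfold_add, zero_add, ← sum_rowT2 i hi (fun t => cfM t i j) (fun t _ h => cfM_zero t i j h)]
  have : ∀ l : List ℕ, (l.map (fun t => cfM t i j)).sum ≤ 36 * (l.map wN).sum := by
    intro l
    induction l with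
    | nil => simp
    | cons a l ih =>
      simp only [List.map_cons, List.sum_cons]
      have := cfM_le a i j
      omega
  exact this _

end Pool.Agent.Helper25.Folk
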