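import Pool.Agent.Helper25.Folk.Four

/-!
The quadratic form attached to a family of weighted triangles, its Fourier blocks,
and their symmetries.
-/

namespace Pool.Agent.Helper25.Folk

open Finset Complex

section form

variable (NT H : ℕ) (cl : ℕ → Fin 3 → ℕ) (dm : ℕ → Fin 3 → V4) (w v : ℕ → ℝ)

noncomputable def zt (u : V4) (y : ℕ → ℂ) (t : ℕ) : ℂ :=
  ∑ r : Fin 3, chi u (-(dm t r)) * y (cl t r)

noncomputable def Qh (u : V4) (y : ℕ → ℂ) : ℝ :=
  ∑ t ∈ range NT, w t * ‖zt cl dm u y t‖ ^ 2 - ∑ i ∈ range H, v i * ‖y i‖ ^ 2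

theorem sum_Qh (s : ℕ → V4 → ℝ) :
    ∑ u, Qh NT H cl dm w v u (fun i => ft (s i) u)
      = 81 * (∑ t ∈ range NT, w t * ∑ x, (∑ r, s (cl t r) (x + dm t r)) ^ 2
          - ∑ i ∈ range H, v i * ∑ x, s i x ^ 2) := by
  unfold Qh
  rw [Finset.sum_sub_distrib, Finset.sum_comm, Finset.sum_comm (s := univ) (t := range H), mul_sub,
    Finset.mul_sum, Finset.mul_sum]
  congr 1
  · apply Finset.sum_congr rfl
    intro t _
    rw [← Finset.mul_sum, mul_left_comm, ← parseval]
    congr 1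
    apply Finset.sum_congr rfl
    intro u _
    congr 2
    rw [ft_sum]
    unfold zt
    apply Finset.sum_congr rfl
    intro r _
    rw [ft_shift]
  · apply Finset.sum_congr rfl
    intro i _
    rw [← Finset.mul_sum, mul_left_comm, ← parseval]

/-- If all Fourier blocks are nonnegative, then a family of `±1` functions without
monochromatic triangles forces `∑ v ≤ ∑ w`. -/
theorem sum_v_le (hQ : ∀ u y, 0 ≤ Qh NT H cl dm w v u y) (s : ℕ → V4 → ℝ)
    (hs : ∀ i x, s i x ^ 2 = 1)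
    (ht : ∀ t ∈ range NT, ∀ x, (∑ r, s (cl t r) (x + dm t r)) ^ 2 = 1) :
    ∑ i ∈ range H, v i ≤ ∑ t ∈ range NT, w t := by
  have h1 : 0 ≤ ∑ u, Qh NT H cl dm w v u (fun i => ft (s i) u) :=
    Finset.sum_nonneg fun u _ => hQ u _
  rw [sum_Qh] at h1
  have hc : (Finset.univ : Finset V4).card = 81 := by
    rw [Finset.card_univ, Fintype.card_fun, ZMod.card, Fintype.card_fin]; norm_num
  have h2 : ∑ t ∈ range NT, w t * ∑ x, (∑ r, s (cl t r) (x + dm t r)) ^ 2
      = ∑ t ∈ range NT, w t * 81 := by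
    apply Finset.sum_congr rfl
    intro t h
    rw [Finset.sum_congr rfl (fun x _ => ht t h x), Finset.sum_const, hc]
    norm_num
  have h3 : ∑ i ∈ range H, v i * ∑ x, s i x ^ 2 = ∑ i ∈ range H, v i * 81 := by
    apply Finset.sum_congr rfl
    intro i h
    rw [Finset.sum_congr rfl (fun x _ => hs i x), Finset.sum_const, hc]
    norm_num
  rw [h2, h3, ← Finset.sum_mul, ← Finset.sum_mul] at h1
  nlinarith

/-- transfer of a block along a symmetry -/
theorem Qh_transfer (u u' : V4) (al : V4 →+ V4) (hal : ∀ x, chi u (al x) = chi u' x)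
    (sg sg' pi pi' : ℕ → ℕ)
    (hcl : ∀ t ∈ range NT, ∀ r, cl t r ∈ range H)
    (h1 : ∀ t ∈ range NT, sg t ∈ range NT) (h2 : ∀ t ∈ range NT, sg' t ∈ range NT)
    (h3 : ∀ t ∈ range NT, sg' (sg t) = t) (h4 : ∀ t ∈ range NT, sg (sg' t) = t)
    (p1 : ∀ t ∈ range H, pi t ∈ range H) (p2 : ∀ t ∈ range H, pi' t ∈ range H)
    (p3 : ∀ t ∈ range H, pi' (pi t) = t) (p4 : ∀ t ∈ range H, pi (pi' t) = t)
    (hw : ∀ t ∈ range NT, w (sg t) = w t) (hv : ∀ t ∈ range H, v (pi t) = v t)
    (hT : ∀ t ∈ range NT, ∃ c : V4, ∃ p : Equiv.Perm (Fin 3), ∀ r,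
      cl (sg t) (p r) = pi (cl t r) ∧ dm (sg t) (p r) = al (dm t r) + c)
    (z : ℕ → ℂ) :
    Qh NT H cl dm w v u' (fun i => z (pi i)) = Qh NT H cl dm w v u z := by
  unfold Qh
  congr 1
  · have e1 : ∀ t ∈ range NT, w t * ‖zt cl dm u' (fun i => z (pi i)) t‖ ^ 2
        = w (sg t) * ‖zt cl dm u z (sg t)‖ ^ 2 := by
      intro t ht
      rw [hw t ht]
      congr 1
      obtain ⟨c, p, hp⟩ := hT t ht
      have e2 : zt cl dm u' (fun i => z (pi i)) t = chi u c * zt cl dm u z (sg t) := by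
        unfold zt
        rw [← Equiv.sum_comp p (fun r => chi u (-(dm (sg t) r)) * z (cl (sg t) r)), Finset.mul_sum]
        apply Finset.sum_congr rfl
        intro r _
        obtain ⟨q1, q2⟩ := hp r
        beta_reduce
        rw [q1, q2, ← hal, map_neg, ← mul_assoc, ← chi_add]
        congr 2
        abel
      rw [e2, norm_mul, norm_chi, one_mul]
    rw [Finset.sum_congr rfl e1]
    exact Finset.sum_nbij' sg sg' h1 h2 h3 h4 (fun _ _ => rfl)
  · have e1 : ∀ i ∈ range H, v i * ‖z (pi i)‖ ^ 2 = v (pi i) * ‖z (pi i)‖ ^ 2 := by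
      intro i hi
      rw [hv i hi]
    rw [Finset.sum_congr rfl e1]
    exact Finset.sum_nbij' pi pi' p1 p2 p3 p4 (fun _ _ => rfl)

theorem Qh_congr (u : V4) (y y' : ℕ → ℂ) (hcl : ∀ t ∈ range NT, ∀ r, cl t r ∈ range H)
    (h : ∀ i ∈ range H, y i = y' i) : Qh NT H cl dm w v u y = Qh NT H cl dm w v u y' := by
  unfold Qh
  congr 1
  · apply Finset.sum_congr rfl
    intro t ht
    congr 3
    unfold zt
    apply Finset.sum_congr rfl
    intro r _
    rw [h _ (hcl t ht r)]
  · apply Finset.sum_congr rfl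
    intro i hi
    rw [h i hi]

/-- nonnegativity transfers along a symmetry -/
theorem Qh_nonneg_transfer (u u' : V4) (al : V4 →+ V4) (hal : ∀ x, chi u (al x) = chi u' x)
    (sg sg' pi pi' : ℕ → ℕ)
    (hcl : ∀ t ∈ range NT, ∀ r, cl t r ∈ range H)
    (h1 : ∀ t ∈ range NT, sg t ∈ range NT) (h2 : ∀ t ∈ range NT, sg' t ∈ range NT)
    (h3 : ∀ t ∈ range NT, sg' (sg t) = t) (h4 : ∀ t ∈ range NT, sg (sg' t) = t)
    (p1 : ∀ t ∈ range H, pi t ∈ range H) (p2 : ∀ t ∈ range H, pi' t ∈ range H)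
    (p3 : ∀ t ∈ range H, pi' (pi t) = t) (p4 : ∀ t ∈ range H, pi (pi' t) = t)
    (hw : ∀ t ∈ range NT, w (sg t) = w t) (hv : ∀ t ∈ range H, v (pi t) = v t)
    (hT : ∀ t ∈ range NT, ∃ c : V4, ∃ p : Equiv.Perm (Fin 3), ∀ r,
      cl (sg t) (p r) = pi (cl t r) ∧ dm (sg t) (p r) = al (dm t r) + c)
    (hQ : ∀ y, 0 ≤ Qh NT H cl dm w v u y) (y : ℕ → ℂ) :
    0 ≤ Qh NT H cl dm w v u' y := by
  have e := Qh_transfer NT H cl dm w v u u' al hal sg sg' pi pi' hcl h1 h2 h3 h4 p1 p2 p3 p4 hw hv hT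
    (fun i => y (pi' i))
  have e2 : Qh NT H cl dm w v u' y = Qh NT H cl dm w v u' (fun i => y (pi' (pi i))) := by
    apply Qh_congr NT H cl dm w v u' _ _ hcl
    intro i hi
    rw [p3 i hi]
  rw [e2, e]
  exact hQ _

theorem Qh_conj (u : V4) (y : ℕ → ℂ) :
    Qh NT H cl dm w v (-u) (fun i => (starRingEnd ℂ) (y i)) = Qh NT H cl dm w v u y := by
  unfold Qh
  congr 1
  · apply Finset.sum_congr rfl
    intro t _
    congr 2
    have : zt cl dm (-u) (fun i => (starRingEnd ℂ) (y i)) t = (starRingEnd ℂ) (zt cl dm u y t) := by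
      unfold zt
      rw [map_sum]
      apply Finset.sum_congr rfl
      intro r _
      rw [map_mul, chi_neg_left]
    rw [this]
    exact RCLike.norm_conj _
  · apply Finset.sum_congr rfl
    intro i _
    congr 2
    exact RCLike.norm_conj _

theorem Qh_parallelogram (u : V4) (a b : ℕ → ℂ) :
    Qh NT H cl dm w v u (fun i => a i + b i) + Qh NT H cl dm w v u (fun i => a i - b i)
      = 2 * Qh NT H cl dm w v u a + 2 * Qh NT H cl dm w v u b := by
  have par : ∀ x y : ℂ, ‖x + y‖ ^ 2 + ‖x - y‖ ^ 2 = 2 * ‖x‖ ^ 2 + 2 * ‖y‖ ^ 2 := by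
    intro x y
    have := parallelogram_law_with_norm ℝ x y
    nlinarith [this]
  have hz1 : ∀ t, zt cl dm u (fun i => a i + b i) t = zt cl dm u a t + zt cl dm u b t := by
    intro t
    unfold zt
    rw [← Finset.sum_add_distrib]
    apply Finset.sum_congr rfl
    intro r _
    ring
  have hz2 : ∀ t, zt cl dm u (fun i => a i - b i) t = zt cl dm u a t - zt cl dm u b t := by
    intro t
    unfold zt
    rw [← Finset.sum_sub_distrib]
    apply Finset.sum_congr rfl
    intro r _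
    ring
  unfold Qh
  have A : ∑ t ∈ range NT, w t * ‖zt cl dm u (fun i => a i + b i) t‖ ^ 2
      + ∑ t ∈ range NT, w t * ‖zt cl dm u (fun i => a i - b i) t‖ ^ 2
      = 2 * ∑ t ∈ range NT, w t * ‖zt cl dm u a t‖ ^ 2 + 2 * ∑ t ∈ range NT, w t * ‖zt cl dm u b t‖ ^ 2 := by
    rw [← Finset.sum_add_distrib, Finset.mul_sum, Finset.mul_sum, ← Finset.sum_add_distrib]
    apply Finset.sum_congr rfl
    intro t _
    rw [hz1, hz2]
    have := par (zt cl dm u a t) (zt cl dm u b t)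
    linear_combination (w t) * this
  have B : ∑ i ∈ range H, v i * ‖a i + b i‖ ^ 2
      + ∑ i ∈ range H, v i * ‖a i - b i‖ ^ 2
      = 2 * ∑ i ∈ range H, v i * ‖a i‖ ^ 2 + 2 * ∑ i ∈ range H, v i * ‖b i‖ ^ 2 := by
    rw [← Finset.sum_add_distrib, Finset.mul_sum, Finset.mul_sum, ← Finset.sum_add_distrib]
    apply Finset.sum_congr rfl
    intro i _
    have := par (a i) (b i)
    linear_combination (v i) * this
  linear_combination A - B

theorem Qh_smul (u : V4) (c : ℂ) (hc : ‖c‖ = 1) (y : ℕ → ℂ) :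
    Qh NT H cl dm w v u (fun i => c * y i) = Qh NT H cl dm w v u y := by
  unfold Qh
  congr 1
  · apply Finset.sum_congr rfl
    intro t _
    congr 2
    have : zt cl dm u (fun i => c * y i) t = c * zt cl dm u y t := by
      unfold zt
      rw [Finset.mul_sum]
      apply Finset.sum_congr rfl
      intro r _
      ring
    rw [this, norm_mul, hc, one_mul]
  · apply Finset.sum_congr rfl
    intro i _
    rw [norm_mul, hc, one_mul]

/-- Reduction to vectors with `y (inv i) = conj (y i)`. -/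
theorem Qh_nonneg_of_real (u : V4) (inv sg : ℕ → ℕ)
    (hcl : ∀ t ∈ range NT, ∀ r, cl t r ∈ range H)
    (h1 : ∀ t ∈ range NT, sg t ∈ range NT)
    (h3 : ∀ t ∈ range NT, sg (sg t) = t)
    (p1 : ∀ t ∈ range H, inv t ∈ range H)
    (p3 : ∀ t ∈ range H, inv (inv t) = t)
    (hw : ∀ t ∈ range NT, w (sg t) = w t) (hv : ∀ t ∈ range H, v (inv t) = v t)
    (hT : ∀ t ∈ range NT, ∃ c : V4, ∃ p : Equiv.Perm (Fin 3), ∀ r,
      cl (sg t) (p r) = inv (cl t r) ∧ dm (sg t) (p r) = -(dm t r) + c)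
    (hQ : ∀ y, (∀ i ∈ range H, y (inv i) = (starRingEnd ℂ) (y i)) → 0 ≤ Qh NT H cl dm w v u y)
    (y : ℕ → ℂ) :
    0 ≤ Qh NT H cl dm w v u y := by
  -- K y
  set K : (ℕ → ℂ) → ℕ → ℂ := fun y i => (starRingEnd ℂ) (y (inv i)) with hK
  have hKQ : ∀ y, Qh NT H cl dm w v u (K y) = Qh NT H cl dm w v u y := by
    intro y
    have e1 := Qh_conj NT H cl dm w v (-u) (fun i => y (inv i))
    rw [neg_neg] at e1
    have e2 := Qh_transfer NT H cl dm w v u (-u) (-(AddMonoidHom.id V4)) (by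
        intro x
        rw [AddMonoidHom.neg_apply, AddMonoidHom.id_apply, chi_neg, chi_neg_left])
      sg sg inv inv hcl h1 h1 h3 h3 p1 p1 p3 p3 hw hv (by
        intro t ht
        obtain ⟨c, p, hp⟩ := hT t ht
        refine ⟨c, p, fun r => ?_⟩
        rw [AddMonoidHom.neg_apply, AddMonoidHom.id_apply]
        exact hp r) y
    rw [← e2, ← e1]
  set a : ℕ → ℂ := fun i => (y i + K y i) / 2 with ha
  set b : ℕ → ℂ := fun i => (y i - K y i) / (2 * Complex.I) with hb
  have hI : Complex.I ≠ 0 := Complex.I_ne_zero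
  have hKK : ∀ i ∈ range H, K y (inv i) = (starRingEnd ℂ) (y i) := by
    intro i hi
    simp only [hK]
    rw [p3 i hi]
  have har : ∀ i ∈ range H, a (inv i) = (starRingEnd ℂ) (a i) := by
    intro i hi
    have h2 := hKK i hi
    simp only [ha]
    rw [h2, map_div₀, map_add]
    simp only [hK, Complex.conj_conj, map_ofNat]
    ring
  have hbr : ∀ i ∈ range H, b (inv i) = (starRingEnd ℂ) (b i) := by
    intro i hi
    have h2 := hKK i hi
    simp only [hb]
    rw [h2, map_div₀, map_sub, map_mul, Complex.conj_I]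
    simp only [hK, Complex.conj_conj, map_ofNat]
    field_simp
    ring
  have hsum : ∀ i, a i + Complex.I * b i = y i := by
    intro i
    simp only [ha, hb]
    field_simp
    ring
  have hdiff : ∀ i, a i - Complex.I * b i = K y i := by
    intro i
    simp only [ha, hb]
    field_simp
    ring
  have hp := Qh_parallelogram NT H cl dm w v u a (fun i => Complex.I * b i)
  rw [funext hsum, funext hdiff, hKQ, Qh_smul NT H cl dm w v u Complex.I (by simp) b] at hp
  have h5 := hQ a har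
  have h6 := hQ b hbr
  linarith

end form

end Pool.Agent.Helper25.Folk
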