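import Mathlib

/-!
Characters of `(ZMod 3)^4` and Parseval's identity.
-/

namespace Pool.Agent.Helper25.Folk

open Finset Complex

abbrev V4 := Fin 4 → ZMod 3

/-- a primitive third root of unity -/
noncomputable def om : ℂ := ⟨-1/2, Real.sqrt 3 / 2⟩

theorem om_sq : om ^ 2 = -1 - om := by
  have h3 : Real.sqrt 3 * Real.sqrt 3 = 3 := Real.mul_self_sqrt (by norm_num)
  apply Complex.ext
  · simp only [om, pow_two, Complex.mul_re, Complex.sub_re, Complex.neg_re, Complex.one_re]
    nlinarith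
  · simp only [om, pow_two, Complex.mul_im, Complex.sub_im, Complex.neg_im, Complex.one_im]
    ring

theorem om_cube : om ^ 3 = 1 := by
  have : om ^ 3 = om ^ 2 * om := by ring
  rw [this, om_sq]
  have h2 : (-1 - om) * om = -om - om ^ 2 := by ring
  rw [h2, om_sq]
  ring

theorem normSq_lin (a b : ℝ) : Complex.normSq ((a : ℂ) + (b : ℂ) * om) = a ^ 2 - a * b + b ^ 2 := by
  have h3 : Real.sqrt 3 * Real.sqrt 3 = 3 := Real.mul_self_sqrt (by norm_num)
  simp only [Complex.normSq_apply, om, Complex.add_re, Complex.add_im, Complex.mul_re,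
    Complex.mul_im, Complex.ofReal_re, Complex.ofReal_im]
  nlinarith

theorem norm_om : ‖om‖ = 1 := by
  have h := normSq_lin 0 1
  have h2 : Complex.normSq om = 1 := by
    have : ((0 : ℝ) : ℂ) + ((1 : ℝ) : ℂ) * om = om := by simp
    rw [this] at h
    rw [h]; norm_num
  rw [Complex.normSq_eq_norm_sq] at h2
  nlinarith [norm_nonneg om, sq_nonneg (‖om‖ - 1)]

theorem conj_om : (starRingEnd ℂ) om = om ^ 2 := by
  rw [om_sq]
  apply Complex.ext
  · simp [om]; norm_num
  · simp [om]

noncomputable def e3 (a : ZMod 3) : ℂ := om ^ a.val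

theorem om_pow_mod (n : ℕ) : om ^ n = om ^ (n % 3) := pow_eq_pow_mod n om_cube

theorem e3_add (a b : ZMod 3) : e3 (a + b) = e3 a * e3 b := by
  unfold e3
  rw [ZMod.val_add, ← om_pow_mod, pow_add]

theorem e3_zero : e3 0 = 1 := by simp [e3]

theorem norm_e3 (a : ZMod 3) : ‖e3 a‖ = 1 := by
  unfold e3; rw [norm_pow, norm_om, one_pow]

theorem e3_natCast (n : ℕ) : e3 (n : ZMod 3) = om ^ n := by
  unfold e3; rw [ZMod.val_natCast, ← om_pow_mod]

theorem e3_neg (a : ZMod 3) : e3 (-a) = (starRingEnd ℂ) (e3 a) := by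
  have h : e3 (-a) * e3 a = 1 := by rw [← e3_add, neg_add_cancel, e3_zero]
  have h2 : (starRingEnd ℂ) (e3 a) * e3 a = 1 := by
    rw [mul_comm, Complex.mul_conj, Complex.normSq_eq_norm_sq, norm_e3]; simp
  have hne : e3 a ≠ 0 := by
    intro h0; have := norm_e3 a; rw [h0] at this; simp at this
  exact mul_right_cancel₀ hne (h.trans h2.symm)

theorem sum_e3 (z : ZMod 3) : ∑ t : ZMod 3, e3 (t * z) = if z = 0 then 3 else 0 := by
  have hsum : (1 : ℂ) + om + om ^ 2 = 0 := by rw [om_sq]; ring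
  have key : ∀ z : ZMod 3, ∑ t : ZMod 3, e3 (t * z) = e3 (0 * z) + e3 (1 * z) + e3 (2 * z) := by
    intro z
    have hu : (Finset.univ : Finset (ZMod 3)) = {0, 1, 2} := by decide
    rw [hu, Finset.sum_insert (by decide), Finset.sum_insert (by decide), Finset.sum_singleton]
    ring
  rw [key]
  have h0 : e3 (0 : ZMod 3) = 1 := e3_zero
  have h1 : e3 (1 : ZMod 3) = om := by
    have := e3_natCast 1; simpa using this
  have h2 : e3 (2 : ZMod 3) = om ^ 2 := by
    have := e3_natCast 2; simpa using this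
  have hz : z = 0 ∨ z = 1 ∨ z = 2 := by
    revert z; decide
  rcases hz with rfl | rfl | rfl
  · simp only [mul_zero, h0]; norm_num
  · have e1 : (0 : ZMod 3) * 1 = 0 := by decide
    have e2 : (1 : ZMod 3) * 1 = 1 := by decide
    have e4 : (2 : ZMod 3) * 1 = 2 := by decide
    rw [e1, e2, e4, h0, h1, h2, hsum]
    have : (1 : ZMod 3) ≠ 0 := by decide
    rw [if_neg this]
  · have e1 : (0 : ZMod 3) * 2 = 0 := by decide
    have e2 : (1 : ZMod 3) * 2 = 2 := by decide
    have e4 : (2 : ZMod 3) * 2 = 1 := by decide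
    rw [e1, e2, e4, h0, h1, h2]
    have : (2 : ZMod 3) ≠ 0 := by decide
    rw [if_neg this]
    linear_combination hsum

/-- the characters of `V4` -/
noncomputable def chi (u x : V4) : ℂ := e3 (∑ i, u i * x i)

theorem chi_add (u x y : V4) : chi u (x + y) = chi u x * chi u y := by
  unfold chi
  rw [← e3_add, ← Finset.sum_add_distrib]
  congr 1
  apply Finset.sum_congr rfl
  intro i _
  simp only [Pi.add_apply]; ring

theorem chi_neg (u x : V4) : chi u (-x) = (starRingEnd ℂ) (chi u x) := by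
  unfold chi
  rw [← e3_neg, ← Finset.sum_neg_distrib]
  congr 1
  apply Finset.sum_congr rfl
  intro i _
  simp only [Pi.neg_apply]; ring

theorem chi_neg_left (u x : V4) : chi (-u) x = (starRingEnd ℂ) (chi u x) := by
  rw [← chi_neg]
  unfold chi
  congr 1
  apply Finset.sum_congr rfl
  intro i _
  simp only [Pi.neg_apply]; ring

theorem norm_chi (u x : V4) : ‖chi u x‖ = 1 := norm_e3 _

theorem e3_sum {ι : Type*} (s : Finset ι) (f : ι → ZMod 3) : e3 (∑ i ∈ s, f i) = ∏ i ∈ s, e3 (f i) := by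
  classical
  induction s using Finset.induction_on with
  | empty => simp [e3_zero]
  | insert a s ha ih => rw [Finset.sum_insert ha, Finset.prod_insert ha, e3_add, ih]

theorem sum_chi (z : V4) : ∑ u : V4, chi u z = if z = 0 then 81 else 0 := by
  have h1 : ∀ u : V4, chi u z = ∏ i, e3 (u i * z i) := fun u => e3_sum _ _
  simp only [h1]
  have h2 := Finset.prod_univ_sum (fun _ : Fin 4 => (Finset.univ : Finset (ZMod 3)))
    (fun i t => e3 (t * z i))
  rw [Fintype.piFinset_univ] at h2
  rw [← h2]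
  simp only [sum_e3]
  by_cases hz : z = 0
  · subst hz; simp; norm_num
  · rw [if_neg hz]
    obtain ⟨i, hi⟩ : ∃ i, z i ≠ 0 := by
      by_contra hcon
      exact hz (funext fun i => by_contra fun hi => hcon ⟨i, hi⟩)
    apply Finset.prod_eq_zero (Finset.mem_univ i)
    rw [if_neg hi]

/-- Fourier transform -/
noncomputable def ft (f : V4 → ℝ) (u : V4) : ℂ := ∑ x : V4, (f x : ℂ) * chi u x

theorem ft_shift (f : V4 → ℝ) (d u : V4) : ft (fun x => f (x + d)) u = chi u (-d) * ft f u := by
  unfold ft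
  rw [Finset.mul_sum, ← Equiv.sum_comp (Equiv.addRight d) (fun x => chi u (-d) * ((f x : ℂ) * chi u x))]
  apply Finset.sum_congr rfl
  intro x _
  simp only [Equiv.coe_addRight]
  have : chi u x = chi u (-d) * chi u (x + d) := by
    rw [← chi_add]; congr 1; abel
  rw [this]; ring

theorem ft_sum {ι : Type*} (s : Finset ι) (f : ι → V4 → ℝ) (u : V4) :
    ft (fun x => ∑ i ∈ s, f i x) u = ∑ i ∈ s, ft (f i) u := by
  unfold ft
  rw [Finset.sum_comm]
  apply Finset.sum_congr rfl
  intro x _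
  push_cast
  rw [Finset.sum_mul]

theorem parseval (f : V4 → ℝ) : ∑ u : V4, ‖ft f u‖ ^ 2 = 81 * ∑ x, f x ^ 2 := by
  have key : (∑ u : V4, ((‖ft f u‖ ^ 2 : ℝ) : ℂ)) = ((81 * ∑ x, f x ^ 2 : ℝ) : ℂ) := by
    have h1 : ∀ u : V4, ((‖ft f u‖ ^ 2 : ℝ) : ℂ)
        = ∑ x : V4, ∑ y : V4, (f x : ℂ) * (f y : ℂ) * chi u (x - y) := by
      intro u
      have : ((‖ft f u‖ ^ 2 : ℝ) : ℂ) = ft f u * (starRingEnd ℂ) (ft f u) := by
        rw [Complex.mul_conj, Complex.normSq_eq_norm_sq]
      rw [this]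
      unfold ft
      rw [map_sum, Finset.sum_mul_sum]
      apply Finset.sum_congr rfl
      intro x _
      apply Finset.sum_congr rfl
      intro y _
      rw [map_mul, Complex.conj_ofReal, ← chi_neg, sub_eq_add_neg, chi_add]
      ring
    simp only [h1]
    rw [Finset.sum_comm]
    push_cast
    rw [Finset.mul_sum]
    apply Finset.sum_congr rfl
    intro x _
    rw [Finset.sum_comm]
    have h2 : ∀ y : V4, ∑ u : V4, (f x : ℂ) * (f y : ℂ) * chi u (x - y)
        = (f x : ℂ) * (f y : ℂ) * (if x - y = 0 then 81 else 0) := by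
      intro y
      rw [← Finset.mul_sum, sum_chi]
    simp only [h2]
    rw [Finset.sum_eq_single x]
    · simp; ring
    · intro y _ hy
      rw [if_neg (fun h => hy (sub_eq_zero.mp h).symm)]; ring
    · intro h; exact absurd (Finset.mem_univ x) h
  exact_mod_cast key

end Pool.Agent.Helper25.Folk
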