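import Pool.Agent.Helper25.Folk.Trans

/-!
The graph on `567 = 7 * 81` vertices: `K_4`-free, kernel checks.
-/

namespace Pool.Agent.Helper25.Folk

set_option maxRecDepth 100000

/-- adjacency masks: bit `81 (7 p + q) + d` for the parts `p < q` and the difference `d` -/
def MB : Nat := 0x19401c1804d835084000000000000000000000000000000000000000000000000000000000000000000000000000000000000000000000000000000000000000000000000000003280383009b06a10800019401c1804d83508400000000000000000000000000000000000000000000000000000000000000000000000000000000000000000000000000000000018300c028c0220840c748046c08c300481893880209080a14025021220a2c0000000000000000000000000000000000000000000000000000000000000000000000000000000010484050a01281091051618300c028c0220840c740046c08c30048189388059401c1804d835084000000000000000000000000000000000000000000000000000000000000000000236046180240c49c4010484050a01281091051718300c028c0220840c743280383009b06a10800019401c1804d835084000000000000000000000000000000000000000000000c18060146011042063a609080a14025021220a2e011b0230c0120624e20118300c028c0220840c748046c08c300481893880609080a14025021220a2e00000000000000000000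

/-- the lists of differences -/
def LT : List (List Nat) := [[], [0, 1, 2, 4, 8, 10, 16, 20, 23, 28, 35, 37, 40, 49, 51, 56, 58, 66, 71, 74, 80], [0, 9, 13, 14, 15, 18, 21, 25, 26, 33, 36, 46, 47, 52, 53, 57, 64, 65, 67, 68, 72], [0, 3, 5, 6, 7, 11, 12, 19, 24, 30, 34, 43, 44, 48, 50, 59, 60, 69, 70, 76, 77], [0, 9, 13, 14, 15, 18, 21, 25, 26, 33, 36, 46, 47, 52, 53, 57, 64, 65, 67, 68, 72], [0, 1, 2, 4, 8, 10, 16, 20, 23, 28, 35, 37, 40, 49, 51, 56, 58, 66, 71, 74, 80], [0, 3, 5, 6, 7, 11, 12, 19, 24, 30, 34, 43, 44, 48, 50, 59, 60, 69, 70, 76, 77], [], [], [17, 22, 27, 29, 31, 32, 38, 39, 41, 42, 45, 54, 55, 61, 62, 63, 73, 75, 78, 79], [17, 22, 27, 29, 31, 32, 38, 39, 41, 42, 45, 54, 55, 61, 62, 63, 73, 75, 78, 79], [3, 5, 6, 7, 11, 12, 19, 24, 30, 34, 43, 44, 48, 50, 59, 60, 69, 70, 76, 77], [0, 1, 2, 4, 8, 10, 16, 20, 23, 28, 35, 37, 40, 49, 51, 56, 58, 66, 71, 74, 80], [9, 13, 14, 15, 18, 21, 25, 26, 33, 36, 46, 47, 52, 53, 57, 64, 65, 67, 68, 72], [], [], [], [17, 22, 27, 29,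 31, 32, 38, 39, 41, 42, 45, 54, 55, 61, 62, 63, 73, 75, 78, 79], [0, 9, 13, 14, 15, 18, 21, 25, 26, 33, 36, 46, 47, 52, 53, 57, 64, 65, 67, 68, 72], [3, 5, 6, 7, 11, 12, 19, 24, 30, 34, 43, 44, 48, 50, 59, 60, 69, 70, 76, 77], [1, 2, 4, 8, 10, 16, 20, 23, 28, 35, 37, 40, 49, 51, 56, 58, 66, 71, 74, 80], [], [], [], [], [1, 2, 4, 8, 10, 16, 20, 23, 28, 35, 37, 40, 49, 51, 56, 58, 66, 71, 74, 80], [9, 13, 14, 15, 18, 21, 25, 26, 33, 36, 46, 47, 52, 53, 57, 64, 65, 67, 68, 72], [0, 3, 5, 6, 7, 11, 12, 19, 24, 30, 34, 43, 44, 48, 50, 59, 60, 69, 70, 76, 77], [], [], [], [], [], [17, 22, 27, 29, 31, 32, 38, 39, 41, 42, 45, 54, 55, 61, 62, 63, 73, 75, 78, 79], [17, 22, 27, 29, 31, 32, 38, 39, 41, 42, 45, 54, 55, 61, 62, 63, 73, 75, 78, 79], [], [], [], [], [], [], [17, 22, 27, 29, 31, 32, 38, 39, 41, 42, 45, 54, 55, 61, 62, 63, 73, 75, 78, 79], [], [], [], [], [], [], []]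

/-- difference of codes -/
def subc (x y : Nat) : Nat := addc x (negc y)

/-- the part pair `(p, q)` has the difference `d` -/
def tb (p q d : Nat) : Bool :=
  Nat.beq (Nat.mod (Nat.shiftRight MB (Nat.add (Nat.mul 81 (Nat.add (Nat.mul 7 p) q)) d)) 2) 1

noncomputable def nthL (k : Nat) : List (List Nat) → List Nat :=
  Nat.rec (fun l => List.rec [] (fun a _ _ => a) l) (fun _ ih l => List.rec [] (fun _ t _ => ih t) l) k

noncomputable def LL (p q : Nat) : List Nat := nthL (Nat.add (Nat.mul 7 p) q) LT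

noncomputable def fall (f : Nat → Bool) (l : List Nat) : Bool :=
  List.rec true (fun a _ ih => cond (f a) ih false) l

theorem fall_spec (f : Nat → Bool) : ∀ l, fall f l = true → ∀ a ∈ l, f a = true
  | [], _, a, ha => by simp at ha
  | b :: l, h, a, ha => by
    have e : fall f (b :: l) = cond (f b) (fall f l) false := rfl
    rw [e] at h
    cases h1 : f b with
    | false => rw [h1, cond_false] at h; exact absurd h Bool.false_ne_true
    | true =>
      rw [h1, cond_true] at h
      rcases List.mem_cons.mp ha with h2 | h2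
      · rw [h2]; exact h1
      · exact fall_spec f l h a h2

noncomputable def chk4 (p0 p1 p2 p3 : Nat) : Bool :=
  fall (fun a => fall (fun b => cond (tb p1 p2 (subc b a))
    (fall (fun c => cond (tb p1 p3 (subc c a)) (cond (tb p2 p3 (subc c b)) false true) true) (LL p0 p3))
    true) (LL p0 p2)) (LL p0 p1)

theorem k4_all : allN (fun p3 => allN (fun p2 => allN (fun p1 => allN (fun p0 => chk4 p0 p1 p2 p3) p1) p2) p3) 7
    = true := by decide +kernel

theorem mem_all : allN (fun p => allN (fun q => allN (fun d => cond (tb p q d) (memL d (LL p q)) true) 81) 7) 7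
    = true := by decide +kernel

theorem edge_all : allN (fun q => tb (pa q) (pb q) (de q)) 429 = true := by decide +kernel

theorem mem_LL (p q d : ℕ) (hp : p < 7) (hq : q < 7) (hd : d < 81) (h : tb p q d = true) : d ∈ LL p q := by
  have h1 := allN_spec _ _ (allN_spec _ _ (allN_spec _ _ mem_all p hp) q hq) d hd
  rw [h, cond_true] at h1
  exact memL_spec _ _ h1

theorem no_k4 (p0 p1 p2 p3 a b c : ℕ) (h01 : p0 < p1) (h12 : p1 < p2) (h23 : p2 < p3) (h3 : p3 < 7)
    (ha : a < 81) (hb : b < 81) (hc : c < 81)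
    (ea : tb p0 p1 a = true) (eb : tb p0 p2 b = true) (ec : tb p0 p3 c = true)
    (eab : tb p1 p2 (subc b a) = true) (eac : tb p1 p3 (subc c a) = true)
    (ebc : tb p2 p3 (subc c b) = true) : False := by
  have h1 := allN_spec _ _ (allN_spec _ _ (allN_spec _ _ (allN_spec _ _ k4_all p3 h3) p2 h23) p1 h12) p0 h01
  have h2 := fall_spec _ _ h1 a (mem_LL p0 p1 a (by omega) (by omega) ha ea)
  have h4 := fall_spec _ _ h2 b (mem_LL p0 p2 b (by omega) (by omega) hb eb)
  rw [eab, cond_true] at h4
  have h5 := fall_spec _ _ h4 c (mem_LL p0 p3 c (by omega) (by omega) hc ec)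
  rw [eac, cond_true, ebc, cond_true] at h5
  exact Bool.false_ne_true h5

theorem addc_lt (x y : ℕ) : addc x y < 81 := by
  rw [addc_eq]; omega

theorem subc_lt (x y : ℕ) : subc x y < 81 := addc_lt _ _

theorem dec_subc (x y : ℕ) : dec (subc x y) = dec x - dec y := by
  unfold subc
  rw [dec_addc, dec_negc, sub_eq_add_neg]

theorem dec_inj {x y : ℕ} (hx : x < 81) (hy : y < 81) (h : dec x = dec y) : x = y := by
  rw [← enc_dec x hx, ← enc_dec y hy, h]

theorem subc_sub (x y z : ℕ) : subc (subc x z) (subc x y) = subc y z := by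
  apply dec_inj (subc_lt _ _) (subc_lt _ _)
  rw [dec_subc, dec_subc, dec_subc, dec_subc]
  abel

/-- directed adjacency -/
def adjR (a b : ℕ) : Prop := a / 81 < b / 81 ∧ tb (a / 81) (b / 81) (subc (a % 81) (b % 81)) = true

/-- the graph -/
def G567 : SimpleGraph (Fin 567) where
  Adj a b := adjR a b ∨ adjR b a
  symm := ⟨fun _ _ h => h.symm⟩
  loopless := ⟨fun _ h => by rcases h with h | h <;> exact absurd h.1 (lt_irrefl _)⟩

theorem no_chain (a b c d : ℕ) (hd : d < 567) (hab : adjR a b) (hac : adjR a c) (had : adjR a d)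
    (hbc : adjR b c) (hbd : adjR b d) (hcd : adjR c d) : False := by
  refine no_k4 (a / 81) (b / 81) (c / 81) (d / 81) (subc (a % 81) (b % 81)) (subc (a % 81) (c % 81))
    (subc (a % 81) (d % 81)) hab.1 hbc.1 hcd.1 (by omega) (subc_lt _ _) (subc_lt _ _) (subc_lt _ _)
    hab.2 hac.2 had.2 ?_ ?_ ?_
  · rw [subc_sub]; exact hbc.2
  · rw [subc_sub]; exact hbd.2
  · rw [subc_sub]; exact hcd.2

theorem G567_cliqueFree : G567.CliqueFree 4 := by
  rw [SimpleGraph.cliqueFree_iff]
  refine ⟨fun f => ?_⟩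
  -- sort by part
  set part : Fin 4 → ℕ := fun i => ((f i : Fin 567) : ℕ) / 81 with hpart
  have hadj : ∀ i j : Fin 4, i ≠ j → adjR (f i : Fin 567) (f j : Fin 567) ∨ adjR (f j : Fin 567) (f i : Fin 567) := by
    intro i j hij
    have h := f.toHom.map_adj (show (SimpleGraph.completeGraph (Fin 4)).Adj i j from hij)
    exact h
  have hinj : ∀ i j : Fin 4, i ≠ j → part i ≠ part j := by
    intro i j hij h
    rcases hadj i j hij with h1 | h1
    · exact absurd h1.1 (by simp only [hpart] at h; omega)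
    · exact absurd h1.1 (by simp only [hpart] at h; omega)
  have hmono := Tuple.monotone_sort part
  set σ := Tuple.sort part with hσ
  have hlt : ∀ i j : Fin 4, i < j → adjR (f (σ i) : Fin 567) (f (σ j) : Fin 567) := by
    intro i j hij
    have h1 : part (σ i) ≤ part (σ j) := hmono hij.le
    have hne : σ i ≠ σ j := fun h => hij.ne (σ.injective h)
    rcases hadj _ _ hne with h2 | h2
    · exact h2
    · exact absurd h2.1 (by simp only [hpart] at h1; omega)
  exact no_chain _ _ _ _ (f (σ 3)).isLt (hlt 0 1 (by decide)) (hlt 0 2 (by decide)) (hlt 0 3 (by decide))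
    (hlt 1 2 (by decide)) (hlt 1 3 (by decide)) (hlt 2 3 (by decide))

/-! ### colourings -/

/-- the vertex of part `p` -/
def vt (p : ℕ) (x : V4) : ℕ := 81 * p + enc x

theorem vt_lt {p : ℕ} (hp : p < 7) (x : V4) : vt p x < 567 := by
  have := enc_lt x; unfold vt; omega

theorem vt_div (p : ℕ) (x : V4) : vt p x / 81 = p := by
  have := enc_lt x; unfold vt; omega

theorem vt_mod (p : ℕ) (x : V4) : vt p x % 81 = enc x := by
  have := enc_lt x; unfold vt; omega

theorem adjR_vt (q : ℕ) (hq : q < 429) (x z : V4) (h : x - z = dec (de q)) :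
    adjR (vt (pa q) x) (vt (pb q) z) := by
  have C := cls q hq
  refine ⟨?_, ?_⟩
  · rw [vt_div, vt_div]; exact C.palt
  · rw [vt_div, vt_div, vt_mod, vt_mod]
    have e : subc (enc x) (enc z) = de q := by
      apply dec_inj (subc_lt _ _) C.delt
      rw [dec_subc, dec_enc, dec_enc, h]
    rw [e]
    exact allN_spec _ _ edge_all q hq

/-- `c` as a function of natural numbers -/
def cN (c : Fin 567 → Fin 567 → Bool) (a b : ℕ) : Bool :=
  if h : a < 567 ∧ b < 567 then c ⟨a, h.1⟩ ⟨b, h.2⟩ else true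

/-- the sign of a colour -/
noncomputable def sgnB (b : Bool) : ℝ := if b = true then 1 else -1

theorem sgnB_sq (b : Bool) : sgnB b ^ 2 = 1 := by
  unfold sgnB; split_ifs <;> norm_num

theorem sgnB_three (a b c : Bool) (h : ¬ (a = b ∧ b = c)) : (sgnB a + sgnB b + sgnB c) ^ 2 = 1 := by
  unfold sgnB
  cases a <;> cases b <;> cases c <;> simp at h ⊢ <;> norm_num

/-- signs of the edges of class `i`, as a function of the midpoint -/
noncomputable def sF (c : Fin 567 → Fin 567 → Bool) (i : ℕ) (m : V4) : ℝ :=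
  sgnB (cN c (vt (pa i) (m - dec (de i))) (vt (pb i) (m + dec (de i))))

theorem three_smul (x : V4) : x + x + x = 0 := by
  funext i
  show x i + x i + x i = 0
  generalize x i = z
  revert z; decide

theorem neg_eq_two (x : V4) : x + x = -x := by
  have h := three_smul x
  exact eq_neg_of_add_eq_zero_left h

theorem main567 (hQ : ∀ (u : V4) (y : ℕ → ℂ), 0 ≤ Qh 2683 429 cl3 dm3 wR vR u y) :
    ∃ G : SimpleGraph (Fin 567), G.CliqueFree 4 ∧
      ∀ c : Fin 567 → Fin 567 → Bool, (∀ x y : Fin 567, c x y = c y x) →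
        ∃ a b d : Fin 567, G.Adj a b ∧ G.Adj b d ∧ G.Adj a d ∧ c a b = c b d ∧ c b d = c a d := by
  refine ⟨G567, G567_cliqueFree, fun c hsymm => ?_⟩
  by_contra hcon
  push Not at hcon
  have hle := sum_v_le 2683 429 cl3 dm3 wR vR hQ (sF c) (fun i x => sgnB_sq _) ?_
  · exact absurd total_lt (not_lt.mpr hle)
  · intro t ht x
    have ht' := Finset.mem_range.mp ht
    have T := tri t ht'
    have C0 := cls _ T.l0
    have C1 := cls _ T.l1
    have C2 := cls _ T.l2
    set d1 := dec (de (t0 t)) with hd1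
    set d2 := dec (de (t1 t)) with hd2
    have hd3 : dec (de (t2 t)) = d2 - d1 := by
      rw [T.de2, dec_addc, dec_negc, ← sub_eq_add_neg]
    have s1 := neg_eq_two d1
    have s2 := neg_eq_two d2
    -- vertices
    set A : Fin 567 := ⟨vt (pa (t0 t)) x, vt_lt (by have := C0.palt; have := C0.pblt; omega) x⟩ with hA
    set B : Fin 567 := ⟨vt (pb (t0 t)) (x - d1), vt_lt C0.pblt _⟩ with hB
    set D : Fin 567 := ⟨vt (pb (t1 t)) (x - d2), vt_lt C1.pblt _⟩ with hD
    have hAB : G567.Adj A B := Or.inl (adjR_vt (t0 t) T.l0 x (x - d1) (by abel))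
    have hAD : G567.Adj A D := by
      refine Or.inl ?_
      have := adjR_vt (t1 t) T.l1 x (x - d2) (by abel)
      rw [← T.a01] at this
      exact this
    have hBD : G567.Adj B D := by
      refine Or.inl ?_
      have := adjR_vt (t2 t) T.l2 (x - d1) (x - d2) (by rw [hd3]; abel)
      rw [← T.b02, ← T.b12] at this
      exact this
    have f0 : sF c (t0 t) (x + dm3 t 0) = sgnB (c A B) := by
      have e0 : dm3 t 0 = d1 := rfl
      have e1 : x + d1 - d1 = x := by abel
      have e2 : x + d1 + d1 = x - d1 := by rw [add_assoc, s1, sub_eq_add_neg]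
      unfold sF
      rw [e0, ← hd1, e1, e2]
      unfold cN
      rw [dif_pos ⟨A.isLt, B.isLt⟩]
    have f1 : sF c (t1 t) (x + dm3 t 1) = sgnB (c A D) := by
      have e0 : dm3 t 1 = d2 := rfl
      have e1 : x + d2 - d2 = x := by abel
      have e2 : x + d2 + d2 = x - d2 := by rw [add_assoc, s2, sub_eq_add_neg]
      unfold sF
      rw [e0, ← hd2, e1, e2, ← T.a01]
      unfold cN
      rw [dif_pos ⟨A.isLt, D.isLt⟩]
    have f2 : sF c (t2 t) (x + dm3 t 2) = sgnB (c B D) := by
      have e0 : dm3 t 2 = d1 + d2 := rfl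
      have e1 : x + (d1 + d2) - (d2 - d1) = x - d1 := by
        have : x + (d1 + d2) - (d2 - d1) = x + (d1 + d1) := by abel
        rw [this, s1, sub_eq_add_neg]
      have e2 : x + (d1 + d2) + (d2 - d1) = x - d2 := by
        have : x + (d1 + d2) + (d2 - d1) = x + (d2 + d2) := by abel
        rw [this, s2, sub_eq_add_neg]
      unfold sF
      rw [e0, hd3, e1, e2, ← T.b02, ← T.b12]
      unfold cN
      rw [dif_pos ⟨B.isLt, D.isLt⟩]
    have e3 : ∑ r, sF c (cl3 t r) (x + dm3 t r)
        = sF c (t0 t) (x + dm3 t 0) + sF c (t1 t) (x + dm3 t 1) + sF c (t2 t) (x + dm3 t 2) := by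
      rw [Fin.sum_univ_three]
      rfl
    rw [e3, f0, f1, f2]
    have h := hcon A B D hAB hBD hAD
    have h4 : ¬ (c A B = c A D ∧ c A D = c B D) := by
      rintro ⟨g1, g2⟩
      exact h (g1.trans g2) g2.symm
    exact sgnB_three _ _ _ h4

end Pool.Agent.Helper25.Folk
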