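import Mathlib
import Pool.Agent.Helper25.Folk.Chk

/-!
Arithmetic of packed integers in base `2^56`.
-/

namespace Pool.Agent.Helper25.Folk

open Finset

theorem XB_eq : XB = 2 ^ 56 := by unfold XB; norm_num

theorem XB_pos : 0 < XB := by unfold XB; norm_num

theorem XB_pow (j : ℕ) : XB ^ j = 2 ^ (56 * j) := by rw [XB_eq, ← pow_mul]

theorem oneN_eq (n : ℕ) : oneN n = ∑ j ∈ range n, XB ^ j := by
  unfold oneN
  exact (Nat.geomSum_eq (by unfold XB; norm_num) n).symm

theorem shr_eq (c j : ℕ) : Nat.shiftRight c (Nat.mul 56 j) = c / XB ^ j := by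
  rw [XB_pow]
  exact Nat.shiftRight_eq_div_pow c (56 * j)

/-- cell `j` of a packed number -/
def cell (c j : ℕ) : ℕ := c / XB ^ j % XB

theorem cell_lt (c j : ℕ) : cell c j < XB := Nat.mod_lt _ XB_pos

theorem cell_zero (c : ℕ) : cell c 0 = c % XB := by simp [cell]

theorem cell_succ (c j : ℕ) : cell c (j + 1) = cell (c / XB) j := by
  unfold cell
  rw [pow_succ', Nat.div_div_eq_div_mul]

theorem eq_sum_cells (n : ℕ) : ∀ c : ℕ, c < XB ^ n → c = ∑ j ∈ range n, cell c j * XB ^ j := by
  induction n with
  | zero => intro c hc; simp at hc; simp [hc]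
  | succ n ih =>
    intro c hc
    rw [Finset.sum_range_succ']
    have h1 : c / XB < XB ^ n := by
      apply Nat.div_lt_of_lt_mul
      rw [pow_succ'] at hc
      exact hc
    have h2 := ih _ h1
    have h3 : ∑ j ∈ range n, cell c (j + 1) * XB ^ (j + 1) = XB * ∑ j ∈ range n, cell (c / XB) j * XB ^ j := by
      rw [Finset.mul_sum]
      apply Finset.sum_congr rfl
      intro j _
      rw [cell_succ, pow_succ']
      ring
    rw [h3, ← h2, cell_zero, pow_zero, mul_one]
    exact (Nat.div_add_mod c XB).symm

theorem cell_sum (n : ℕ) : ∀ (f : ℕ → ℕ) (i : ℕ), (∀ j < n, f j < XB) → i < n →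
    cell (∑ j ∈ range n, f j * XB ^ j) i = f i := by
  induction n with
  | zero => intro f i _ hi; omega
  | succ n ih =>
    intro f i hf hi
    have h3 : ∑ j ∈ range (n + 1), f j * XB ^ j = f 0 + XB * ∑ j ∈ range n, f (j + 1) * XB ^ j := by
      rw [Finset.sum_range_succ', Finset.mul_sum, pow_zero, mul_one, add_comm]
      congr 1
      apply Finset.sum_congr rfl
      intro j _
      rw [pow_succ']
      ring
    rw [h3]
    cases i with
    | zero =>
      rw [cell_zero, Nat.add_mul_mod_self_left, Nat.mod_eq_of_lt (hf 0 (by omega))]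
    | succ i =>
      rw [cell_succ]
      have : (f 0 + XB * ∑ j ∈ range n, f (j + 1) * XB ^ j) / XB = ∑ j ∈ range n, f (j + 1) * XB ^ j := by
        rw [Nat.add_mul_div_left _ _ XB_pos, Nat.div_eq_of_lt (hf 0 (by omega)), zero_add]
      rw [this]
      exact ih (fun j => f (j + 1)) i (fun j hj => hf (j + 1) (by omega)) (by omega)

/-- the mask controls the cells -/
theorem cell_lt_of_mask (b n : ℕ) (hb : b ≤ 56) : ∀ Z : ℕ,
    Z &&& ((XB - 2 ^ b) * ∑ j ∈ range n, XB ^ j) = 0 → ∀ j < n, cell Z j < 2 ^ b := by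
  have hXb : (XB - 2 ^ b) < 2 ^ 56 := by
    rw [XB_eq]
    have : 0 < 2 ^ b := by positivity
    omega
  induction n with
  | zero => intro Z _ j hj; omega
  | succ n ih =>
    intro Z hZ j hj
    have h3 : (XB - 2 ^ b) * ∑ j ∈ range (n + 1), XB ^ j
        = 2 ^ 56 * ((XB - 2 ^ b) * ∑ j ∈ range n, XB ^ j) + (XB - 2 ^ b) := by
      rw [Finset.sum_range_succ', ← XB_eq]
      have : ∑ j ∈ range n, XB ^ (j + 1) = XB * ∑ j ∈ range n, XB ^ j := by
        rw [Finset.mul_sum]
        apply Finset.sum_congr rfl
        intro j _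
        rw [pow_succ']
      rw [this]; ring
    rw [h3] at hZ
    set M := (XB - 2 ^ b) * ∑ j ∈ range n, XB ^ j with hM
    -- low part
    have hlow : (Z % 2 ^ 56) &&& (XB - 2 ^ b) = 0 := by
      apply Nat.eq_of_testBit_eq
      intro k
      rw [Nat.testBit_and, Nat.zero_testBit, Nat.testBit_mod_two_pow]
      by_cases hk : k < 56
      · have := congrArg (fun x => Nat.testBit x k) hZ
        simp only [Nat.testBit_and, Nat.zero_testBit] at this
        rw [Nat.testBit_two_pow_mul_add _ hXb, if_pos hk] at this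
        simp [hk, this]
      · simp [hk]
    have hhigh : (Z / 2 ^ 56) &&& M = 0 := by
      apply Nat.eq_of_testBit_eq
      intro k
      rw [Nat.testBit_and, Nat.zero_testBit]
      have := congrArg (fun x => Nat.testBit x (56 + k)) hZ
      simp only [Nat.testBit_and, Nat.zero_testBit] at this
      rw [Nat.testBit_two_pow_mul_add _ hXb, if_neg (by omega), Nat.add_sub_cancel_left] at this
      rw [Nat.testBit_div_two_pow, add_comm k 56]
      exact this
    cases j with
    | zero =>
      rw [cell_zero, XB_eq]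
      apply Nat.lt_pow_two_of_testBit
      intro k hk
      by_contra hcon
      have hcon' : (Z % 2 ^ 56).testBit k = true := by simpa using hcon
      have hk56 : k < 56 := by
        by_contra h56
        rw [Nat.testBit_mod_two_pow] at hcon'
        simp [h56] at hcon'
      have hb2 : (XB - 2 ^ b).testBit k = true := by
        have e : XB - 2 ^ b = 2 ^ b * (2 ^ (56 - b) - 1) := by
          rw [XB_eq, Nat.mul_sub, mul_one, ← pow_add]
          congr 2; omega
        rw [e, Nat.testBit_two_pow_mul]
        simp only [hk, decide_true, Bool.true_and]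
        rw [Nat.testBit_two_pow_sub_one]
        simp only [decide_eq_true_eq]
        omega
      have := congrArg (fun x => Nat.testBit x k) hlow
      simp only [Nat.testBit_and, Nat.zero_testBit, hcon', hb2, Bool.and_self] at this
      exact absurd this (by decide)
    | succ j =>
      rw [cell_succ, XB_eq]
      exact ih _ hhigh j (by omega)

/-- balanced digits are unique -/
theorem balanced_unique (n : ℕ) : ∀ (z d : ℕ → ℤ),
    (∀ j < n, 2 * |z j| < XB) → (∀ j < n, 2 * |d j| < XB) →
    ∑ j ∈ range n, z j * (XB : ℤ) ^ j = ∑ j ∈ range n, d j * (XB : ℤ) ^ j →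
    ∀ j < n, z j = d j := by
  induction n with
  | zero => intro z d _ _ _ j hj; omega
  | succ n ih =>
    intro z d hz hd h
    have h3 : ∀ f : ℕ → ℤ, ∑ j ∈ range (n + 1), f j * (XB : ℤ) ^ j
        = f 0 + XB * ∑ j ∈ range n, f (j + 1) * (XB : ℤ) ^ j := by
      intro f
      rw [Finset.sum_range_succ', Finset.mul_sum, pow_zero, mul_one, add_comm]
      congr 1
      apply Finset.sum_congr rfl
      intro j _
      rw [pow_succ']
      ring
    rw [h3 z, h3 d] at h
    have h0 : z 0 = d 0 := by
      have hdvd : (XB : ℤ) ∣ z 0 - d 0 := ⟨∑ j ∈ range n, d (j + 1) * (XB : ℤ) ^ j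
        - ∑ j ∈ range n, z (j + 1) * (XB : ℤ) ^ j, by linarith⟩
      have habs : |z 0 - d 0| < XB := by
        have h1 := hz 0 (by omega)
        have h2 := hd 0 (by omega)
        have := abs_sub (z 0) (d 0)
        omega
      have := Int.eq_zero_of_abs_lt_dvd hdvd habs
      omega
    have hX : (XB : ℤ) ≠ 0 := by exact_mod_cast XB_pos.ne'
    have h1 : ∑ j ∈ range n, z (j + 1) * (XB : ℤ) ^ j = ∑ j ∈ range n, d (j + 1) * (XB : ℤ) ^ j := by
      apply mul_left_cancel₀ hX
      linarith
    intro j hj
    cases j with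
    | zero => exact h0
    | succ j =>
      exact ih (fun j => z (j + 1)) (fun j => d (j + 1)) (fun j hj => hz _ (by omega))
        (fun j hj => hd _ (by omega)) h1 j (by omega)

end Pool.Agent.Helper25.Folk
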