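import Pool.Agent.Helper25.Folk.RowFact
import Pool.Agent.Helper25.Folk.Form

/-!
From the row estimates to nonnegativity of a Fourier block.
-/

namespace Pool.Agent.Helper25.Folk

open Finset Complex

/-! ### decoding -/

/-- decoding of a base 3 number -/
def dec (x : ℕ) : V4 := fun i => ((x / 3 ^ (i : ℕ) : ℕ) : ZMod 3)

theorem cast_mod3 (n : ℕ) : ((n % 3 : ℕ) : ZMod 3) = (n : ZMod 3) := by
  rw [ZMod.natCast_mod]

theorem addc_eq (x y : ℕ) : addc x y = (x + y) % 3 + (3 * ((x / 3 + y / 3) % 3)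
    + (9 * ((x / 9 + y / 9) % 3) + 27 * ((x / 27 + y / 27) % 3))) := rfl

theorem dotc_eq (u x : ℕ) : dotc u x = (u * x + (u / 3 * (x / 3) + (u / 9 * (x / 9)
    + u / 27 * (x / 27)))) % 3 := rfl

theorem dec_addc (x y : ℕ) : dec (addc x y) = dec x + dec y := by
  funext i
  simp only [dec, Pi.add_apply]
  rw [addc_eq]
  fin_cases i
  · simp only [Fin.zero_eta, Fin.isValue, Fin.val_zero, pow_zero, Nat.div_one]
    have h : (x + y) % 3 + (3 * ((x / 3 + y / 3) % 3) + (9 * ((x / 9 + y / 9) % 3) + 27 * ((x / 27 + y / 27) % 3)))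
        = (x + y) % 3 + 3 * (((x / 3 + y / 3) % 3) + (3 * ((x / 9 + y / 9) % 3) + 9 * ((x / 27 + y / 27) % 3))) := by
      ring
    rw [h, Nat.cast_add, cast_mod3, Nat.cast_mul]
    have : ((3 : ℕ) : ZMod 3) = 0 := by decide
    rw [this, zero_mul, add_zero]
    push_cast; ring
  · simp only [Fin.mk_one, Fin.isValue, Fin.val_one, pow_one]
    have h : ((x + y) % 3 + (3 * ((x / 3 + y / 3) % 3) + (9 * ((x / 9 + y / 9) % 3) + 27 * ((x / 27 + y / 27) % 3)))) / 3
        = (x / 3 + y / 3) % 3 + 3 * (((x / 9 + y / 9) % 3) + 3 * ((x / 27 + y / 27) % 3)) := by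
      omega
    rw [h, Nat.cast_add, cast_mod3, Nat.cast_mul]
    have : ((3 : ℕ) : ZMod 3) = 0 := by decide
    rw [this, zero_mul, add_zero]
    push_cast; ring
  · have e : ((⟨2, by norm_num⟩ : Fin 4) : ℕ) = 2 := rfl
    simp only [e]
    have h : ((x + y) % 3 + (3 * ((x / 3 + y / 3) % 3) + (9 * ((x / 9 + y / 9) % 3) + 27 * ((x / 27 + y / 27) % 3)))) / 3 ^ 2
        = (x / 3 ^ 2 + y / 3 ^ 2) % 3 + 3 * ((x / 27 + y / 27) % 3) := by
      norm_num; omega
    rw [h, Nat.cast_add, cast_mod3, Nat.cast_mul]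
    have : ((3 : ℕ) : ZMod 3) = 0 := by decide
    rw [this, zero_mul, add_zero]
    push_cast; ring
  · have e : ((⟨3, by norm_num⟩ : Fin 4) : ℕ) = 3 := rfl
    simp only [e]
    have h : ((x + y) % 3 + (3 * ((x / 3 + y / 3) % 3) + (9 * ((x / 9 + y / 9) % 3) + 27 * ((x / 27 + y / 27) % 3)))) / 3 ^ 3
        = (x / 3 ^ 3 + y / 3 ^ 3) % 3 := by
      norm_num; omega
    rw [h, cast_mod3]
    push_cast; ring

theorem dec_negc (x : ℕ) : dec (negc x) = -dec x := by
  unfold negc
  rw [dec_addc]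
  funext i
  simp only [Pi.add_apply, Pi.neg_apply]
  generalize dec x i = z
  revert z; decide

theorem chi_dec (u x : ℕ) : chi (dec u) (dec x) = om ^ (dotc u x) := by
  unfold chi
  have h : (∑ i, dec u i * dec x i) = ((dotc u x : ℕ) : ZMod 3) := by
    rw [Fin.sum_univ_four]
    rw [dotc_eq, cast_mod3]
    unfold dec
    push_cast
    simp only [Fin.val_zero, Fin.val_one, Fin.val_two, pow_zero, pow_one, Nat.div_one]
    have e3 : ((3 : Fin 4) : ℕ) = 3 := rfl
    rw [e3]
    norm_num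
    ring
  rw [h, e3_natCast]

theorem dotc_lt (u x : ℕ) : dotc u x < 3 := Nat.mod_lt _ (by norm_num)

theorem chi_neg_dec (u x : ℕ) : chi (dec u) (-(dec x)) = om ^ (Nat.mod (Nat.mul 2 (dotc u x)) 3) := by
  have h1 : chi (dec u) (-(dec x)) = (om ^ 2) ^ (dotc u x) := by
    rw [chi_neg, chi_dec, map_pow, conj_om]
  have hm : Nat.mod (Nat.mul 2 (dotc u x)) 3 = (2 * dotc u x) % 3 := rfl
  rw [h1, ← pow_mul, hm, ← om_pow_mod]

/-! ### the data of the form -/

/-- edge classes of a triangle -/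
def cl3 (t : ℕ) : Fin 3 → ℕ := ![t0 t, t1 t, t2 t]
/-- midpoints -/
def dm3 (t : ℕ) : Fin 3 → V4 := ![dec (de (t0 t)), dec (de (t1 t)), dec (de (t0 t)) + dec (de (t1 t))]

theorem cl3_lt (t : ℕ) (ht : t < 2683) (r : Fin 3) : cl3 t r < 429 := by
  have T := tri t ht
  fin_cases r
  · exact T.l0
  · exact T.l1
  · exact T.l2

theorem zt_eq (u : ℕ) (y : ℕ → ℂ) (t : ℕ) :
    zt cl3 dm3 (dec u) y t = om ^ (e0 u t) * y (t0 t) + om ^ (e1 u t) * y (t1 t)
      + om ^ (e2 u t) * y (t2 t) := by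
  unfold zt
  rw [Fin.sum_univ_three]
  have h0 : chi (dec u) (-dm3 t 0) = om ^ (e0 u t) := chi_neg_dec u _
  have h1 : chi (dec u) (-dm3 t 1) = om ^ (e1 u t) := chi_neg_dec u _
  have h2 : chi (dec u) (-dm3 t 2) = om ^ (e2 u t) := by
    have : dm3 t 2 = dec (addc (de (t0 t)) (de (t1 t))) := by rw [dec_addc]; rfl
    rw [this]
    exact chi_neg_dec u _
  rw [h0, h1, h2]
  rfl

/-! ### real coordinates -/

noncomputable def bq (z : ℂ) : ℝ := 2 * z.im / Real.sqrt 3
noncomputable def aq (z : ℂ) : ℝ := z.re + z.im / Real.sqrt 3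

theorem aq_bq (z : ℂ) : z = (aq z : ℂ) + (bq z : ℂ) * om := by
  have h3 : Real.sqrt 3 ≠ 0 := by positivity
  apply Complex.ext
  · simp only [aq, bq, om, Complex.add_re, Complex.mul_re, Complex.ofReal_re, Complex.ofReal_im]
    field_simp
    ring
  · simp only [aq, bq, om, Complex.add_im, Complex.mul_im, Complex.ofReal_re, Complex.ofReal_im]
    field_simp
    ring

section real

variable (y : ℕ → ℂ)

noncomputable def pp (q : ℕ) : ℝ := if q ≤ iv q then aq (y q) else bq (y (iv q))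

variable (hy : ∀ i ∈ range 429, y (iv i) = (starRingEnd ℂ) (y i))

include hy

theorem y_self (q : ℕ) (hq : q < 429) (h : iv q = q) : y q = (pp y q : ℂ) := by
  have h1 := hy q (mem_range.mpr hq)
  rw [h] at h1
  have him : (y q).im = 0 := Complex.conj_eq_iff_im.mp h1.symm
  unfold pp
  rw [if_pos (by omega)]
  apply Complex.ext
  · simp [aq, him]
  · simp [him]

theorem y_lo (q : ℕ) (hq : q < 429) (h : q < iv q) :
    y q = (pp y q : ℂ) + (pp y (iv q) : ℂ) * om := by
  have C := cls q hq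
  have e1 : pp y q = aq (y q) := by unfold pp; rw [if_pos h.le]
  have e2 : pp y (iv q) = bq (y q) := by
    unfold pp
    rw [C.iviv, if_neg (by omega)]
  rw [e1, e2]
  exact aq_bq (y q)

theorem y_hi (q : ℕ) (hq : q < 429) (h : iv q < q) :
    y q = (pp y (iv q) : ℂ) + (pp y q : ℂ) * om ^ 2 := by
  have C := cls q hq
  have h1 := y_lo y hy (iv q) C.ivlt (by rw [C.iviv]; exact h)
  rw [C.iviv] at h1
  have h2 := hy (iv q) (mem_range.mpr C.ivlt)
  rw [C.iviv] at h2
  rw [h2, h1, map_add, map_mul, Complex.conj_ofReal, Complex.conj_ofReal, conj_om]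

/-- one edge in real coordinates -/
theorem edge_real (q e : ℕ) (hq : q < 429) (he : e < 3) :
    om ^ e * y q = (∑ v ∈ range 429, pp y v * (occ q e v 0 : ℝ) : ℝ)
      + (∑ v ∈ range 429, pp y v * (occ q e v 1 : ℝ) : ℝ) * om
      + (∑ v ∈ range 429, pp y v * (occ q e v 2 : ℝ) : ℝ) * om ^ 2 := by
  have C := cls q hq
  have hh := hie_lt q e
  have key : ∀ c, (∑ v ∈ range 429, pp y v * (occ q e v c : ℝ) : ℝ)
      = (if e = c then pp y (lov q) else 0) + (if hie q e = c ∧ iv q ≠ q then pp y (hiv q) else 0) := by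
    intro c
    have e1 : ∀ v ∈ range 429, pp y v * (occ q e v c : ℝ)
        = (if lov q = v then (if e = c then pp y v else 0) else 0)
          + (if hiv q = v then (if hie q e = c ∧ iv q ≠ q then pp y v else 0) else 0) := by
      intro v _
      have h1 : pp y v * ((if e = c ∧ lov q = v then 1 else 0 : ℕ) : ℝ)
          = (if lov q = v then (if e = c then pp y v else 0) else 0) := by
        by_cases a : lov q = v
        · by_cases b : e = c
          · rw [if_pos ⟨b, a⟩, if_pos a, if_pos b, Nat.cast_one, mul_one]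
          · rw [if_neg (fun h => b h.1), if_pos a, if_neg b, Nat.cast_zero, mul_zero]
        · rw [if_neg (fun h => a h.2), if_neg a, Nat.cast_zero, mul_zero]
      have h2 : pp y v * ((if hie q e = c ∧ hiv q = v ∧ iv q ≠ q then 1 else 0 : ℕ) : ℝ)
          = (if hiv q = v then (if hie q e = c ∧ iv q ≠ q then pp y v else 0) else 0) := by
        by_cases a : hiv q = v
        · by_cases b : hie q e = c ∧ iv q ≠ q
          · rw [if_pos ⟨b.1, a, b.2⟩, if_pos a, if_pos b, Nat.cast_one, mul_one]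
          · rw [if_neg (fun h => b ⟨h.1, h.2.2⟩), if_pos a, if_neg b, Nat.cast_zero, mul_zero]
        · rw [if_neg (fun h => a h.2.1), if_neg a, Nat.cast_zero, mul_zero]
      have h0 : (occ q e v c : ℝ) = ((if e = c ∧ lov q = v then 1 else 0 : ℕ) : ℝ)
          + ((if hie q e = c ∧ hiv q = v ∧ iv q ≠ q then 1 else 0 : ℕ) : ℝ) := by
        unfold occ
        exact Nat.cast_add _ _
      rw [h0, mul_add, h1, h2]
    rw [Finset.sum_congr rfl e1, Finset.sum_add_distrib, Finset.sum_ite_eq, Finset.sum_ite_eq,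
      if_pos (mem_range.mpr (lov_lt hq)), if_pos (mem_range.mpr (hiv_lt hq))]
  rw [key 0, key 1, key 2]
  have hsel : ∀ (x : ℕ) (P : ℂ), x < 3 → om ^ x * P = (if x = 0 then P else 0) + (if x = 1 then P else 0) * om
      + (if x = 2 then P else 0) * om ^ 2 := by
    intro x P hx
    interval_cases x <;> simp <;> ring
  have hc : ∀ (P : Prop) [Decidable P] (a : ℝ), (((if P then a else 0 : ℝ)) : ℂ) = if P then (a : ℂ) else 0 := by
    intro P _ a
    split_ifs <;> simp
  rcases lt_trichotomy (iv q) q with h | h | h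
  · -- high
    have l1 : lov q = iv q := by rw [lov_eq, if_neg (by omega)]
    have l2 : hiv q = q := by rw [hiv_eq, if_neg (by omega)]
    have hne : iv q ≠ q := by omega
    have l3 : hie q e = (e + 2) % 3 := by
      unfold hie
      rw [bc_ble, if_neg (by omega)]
      rfl
    rw [l1, l2, y_hi y hy q hq h, mul_add]
    have e2 : om ^ e * ((pp y q : ℂ) * om ^ 2) = om ^ (hie q e) * (pp y q : ℂ) := by
      rw [l3, ← om_pow_mod, pow_add]; ring
    rw [e2, hsel e _ he, hsel _ _ hh]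
    simp only [hne, ne_eq, not_false_eq_true, and_true, Complex.ofReal_add, hc]
    ring
  · -- self
    have l1 : lov q = q := by rw [lov_eq, if_pos (by omega)]
    rw [l1, y_self y hy q hq h, hsel e _ he]
    simp only [h, ne_eq, not_true_eq_false, and_false, if_false, add_zero, hc]
  · -- low
    have l1 : lov q = q := by rw [lov_eq, if_pos (by omega)]
    have l2 : hiv q = iv q := by rw [hiv_eq, if_pos (by omega)]
    have hne : iv q ≠ q := by omega
    have l3 : hie q e = (e + 1) % 3 := by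
      unfold hie
      rw [bc_ble, if_pos (by omega)]
      rfl
    rw [l1, l2, y_lo y hy q hq h, mul_add]
    have e2 : om ^ e * ((pp y (iv q) : ℂ) * om) = om ^ (hie q e) * (pp y (iv q) : ℂ) := by
      rw [l3, ← om_pow_mod, pow_add]; ring
    rw [e2, hsel e _ he, hsel _ _ hh]
    simp only [hne, ne_eq, not_false_eq_true, and_true, Complex.ofReal_add, hc]
    ring

/-- one triangle in real coordinates -/
theorem tri_real (u t : ℕ) (ht : t < 2683) :
    2 * ‖zt cl3 dm3 (dec u) y t‖ ^ 2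
      = 3 * ((∑ v ∈ range 429, pp y v * (OO u t v 0 : ℝ)) ^ 2 + (∑ v ∈ range 429, pp y v * (OO u t v 1 : ℝ)) ^ 2
          + (∑ v ∈ range 429, pp y v * (OO u t v 2 : ℝ)) ^ 2)
        - (∑ v ∈ range 429, pp y v * (Jt t v : ℝ)) ^ 2 := by
  have T := tri t ht
  have hA : ∀ c, (∑ v ∈ range 429, pp y v * (OO u t v c : ℝ))
      = (∑ v ∈ range 429, pp y v * (occ (t0 t) (e0 u t) v c : ℝ))
        + (∑ v ∈ range 429, pp y v * (occ (t1 t) (e1 u t) v c : ℝ))
        + (∑ v ∈ range 429, pp y v * (occ (t2 t) (e2 u t) v c : ℝ)) := by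
    intro c
    rw [← Finset.sum_add_distrib, ← Finset.sum_add_distrib]
    apply Finset.sum_congr rfl
    intro v _
    unfold OO
    push_cast
    ring
  have hJ : (∑ v ∈ range 429, pp y v * (Jt t v : ℝ))
      = (∑ v ∈ range 429, pp y v * (OO u t v 0 : ℝ)) + (∑ v ∈ range 429, pp y v * (OO u t v 1 : ℝ))
        + (∑ v ∈ range 429, pp y v * (OO u t v 2 : ℝ)) := by
    rw [← Finset.sum_add_distrib, ← Finset.sum_add_distrib]
    apply Finset.sum_congr rfl
    intro v _
    rw [← sum_OO u t v]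
    push_cast
    ring
  set A0 := (∑ v ∈ range 429, pp y v * (OO u t v 0 : ℝ)) with hA0
  set A1 := (∑ v ∈ range 429, pp y v * (OO u t v 1 : ℝ)) with hA1
  set A2 := (∑ v ∈ range 429, pp y v * (OO u t v 2 : ℝ)) with hA2
  have hz : zt cl3 dm3 (dec u) y t = ((A0 - A2 : ℝ) : ℂ) + ((A1 - A2 : ℝ) : ℂ) * om := by
    rw [zt_eq, edge_real y hy _ _ T.l0 (e0_lt u t), edge_real y hy _ _ T.l1 (e1_lt u t),
      edge_real y hy _ _ T.l2 (e2_lt u t), hA0, hA1, hA2, hA 0, hA 1, hA 2]
    push_cast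
    rw [om_sq]
    ring
  have hn : ‖zt cl3 dm3 (dec u) y t‖ ^ 2 = (A0 - A2) ^ 2 - (A0 - A2) * (A1 - A2) + (A1 - A2) ^ 2 := by
    rw [hz, ← Complex.normSq_eq_norm_sq, normSq_lin]
  rw [hn, hJ]
  ring

theorem norm_y_self (q : ℕ) (hq : q < 429) (h : iv q = q) : ‖y q‖ ^ 2 = pp y q ^ 2 := by
  rw [y_self y hy q hq h, ← Complex.normSq_eq_norm_sq, Complex.normSq_ofReal]
  ring

theorem norm_y_ne (q : ℕ) (hq : q < 429) (h : iv q ≠ q) :
    ‖y q‖ ^ 2 = pp y q ^ 2 - pp y q * pp y (iv q) + pp y (iv q) ^ 2 := by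
  have C := cls q hq
  rcases lt_or_gt_of_ne h with h | h
  · have h1 := y_lo y hy (iv q) C.ivlt (by rw [C.iviv]; exact h)
    rw [C.iviv] at h1
    have h2 := hy (iv q) (mem_range.mpr C.ivlt)
    rw [C.iviv] at h2
    rw [h2, RCLike.norm_conj, h1, ← Complex.normSq_eq_norm_sq, normSq_lin]
    ring
  · rw [y_lo y hy q hq h, ← Complex.normSq_eq_norm_sq, normSq_lin]

end real

end Pool.Agent.Helper25.Folk
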