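import Pool.Agent.Helper25.Folk.Pack

/-!
Meaning of the kernel check of the rows.
-/

namespace Pool.Agent.Helper25.Folk

open Finset

set_option exponentiation.threshold 500

/-! ### list functions defined by recursors -/

theorem lfold_add (f : ℕ → ℕ) : ∀ (l : List ℕ) (b : ℕ),
    lfold (fun acc t => Nat.add acc (f t)) l b = b + (l.map f).sum
  | [], b => by simp [lfold]
  | a :: l, b => by
    have e : lfold (fun acc t => Nat.add acc (f t)) (a :: l) b
        = lfold (fun acc t => Nat.add acc (f t)) l (Nat.add b (f a)) := rfl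
    rw [e, lfold_add f l]
    simp only [List.map_cons, List.sum_cons, Nat.add_eq]
    ring

theorem fullc_length : ∀ (l : List ℕ) (s : ℕ), (fullc l s).length = l.length
  | [], _ => rfl
  | a :: l, s => by
    have e : fullc (a :: l) s
        = Nat.add (Nat.mul OB (oneN s)) (Nat.mul (Nat.pow XB s) a) :: fullc l (Nat.succ s) := rfl
    rw [e, List.length_cons, List.length_cons, fullc_length l]

theorem fullc_getD : ∀ (l : List ℕ) (s k : ℕ), k < l.length →
    (fullc l s).getD k 0 = OB * oneN (s + k) + XB ^ (s + k) * l.getD k 0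
  | [], _, k, h => by simp at h
  | a :: l, s, 0, _ => by
    have e : fullc (a :: l) s
        = Nat.add (Nat.mul OB (oneN s)) (Nat.mul (Nat.pow XB s) a) :: fullc l (Nat.succ s) := rfl
    rw [e, List.getD_cons_zero, List.getD_cons_zero]
    rfl
  | a :: l, s, k + 1, h => by
    have e : fullc (a :: l) s
        = Nat.add (Nat.mul OB (oneN s)) (Nat.mul (Nat.pow XB s) a) :: fullc l (Nat.succ s) := rfl
    rw [e, List.getD_cons_succ, List.getD_cons_succ, fullc_getD l (Nat.succ s) k (by simpa using h)]
    have : Nat.succ s + k = s + (k + 1) := by omega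
    rw [this]

theorem okCols_spec : ∀ (l : List ℕ), okCols l = true → ∀ k < l.length,
    (l.getD k 0) &&& maskC = 0 ∧ l.getD k 0 < XB ^ 429
  | [], _, k, hk => by simp at hk
  | c :: cs, h, k, hk => by
    have e : okCols (c :: cs) = cond (Nat.beq (Nat.land c maskC) 0)
      (cond (Nat.ble (Nat.succ c) (Nat.pow XB 429)) (okCols cs) false) false := rfl
    rw [e] at h
    cases h1 : Nat.beq (Nat.land c maskC) 0 with
    | false => rw [h1] at h; simp at h
    | true =>
      rw [h1, cond_true] at h
      cases h2 : Nat.ble (Nat.succ c) (Nat.pow XB 429) with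
      | false => rw [h2] at h; simp at h
      | true =>
        rw [h2, cond_true] at h
        cases k with
        | zero =>
          rw [List.getD_cons_zero]
          exact ⟨Nat.eq_of_beq_eq_true h1, Nat.le_of_ble_eq_true h2⟩
        | succ k =>
          rw [List.getD_cons_succ]
          exact okCols_spec cs h k (by simpa using hk)

theorem rowG_spec (sh : ℕ) : ∀ (n : ℕ) (l : List ℕ) (acc : ℕ),
    rowG sh n l acc = acc + ∑ k ∈ range n, (Nat.shiftRight (l.getD k 0) sh % XB) * l.getD k 0
  | 0, l, acc => by
    have e : rowG sh 0 l acc = acc := rfl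
    rw [e]; simp
  | n + 1, [], acc => by
    have e : rowG sh (n + 1) [] acc = acc := rfl
    rw [e]; simp
  | n + 1, c :: cs, acc => by
    have e : rowG sh (n + 1) (c :: cs) acc
        = rowG sh n cs (Nat.add acc (Nat.mul (Nat.mod (Nat.shiftRight c sh) XB) c)) := rfl
    rw [e, rowG_spec sh n cs, Finset.sum_range_succ']
    simp only [List.getD_cons_succ, List.getD_cons_zero, Nat.add_eq, Nat.mul_eq]
    have : Nat.mod (Nat.shiftRight c sh) XB = Nat.shiftRight c sh % XB := rfl
    rw [this]
    ring

theorem dropL_getD : ∀ (n : ℕ) (l : List ℕ) (k : ℕ), (dropL n l).getD k 0 = l.getD (n + k) 0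
  | 0, l, k => by
    have e : dropL 0 l = l := rfl
    rw [e, Nat.zero_add]
  | n + 1, [], k => by
    have e : dropL (n + 1) [] = [] := rfl
    rw [e]; simp
  | n + 1, c :: cs, k => by
    have e : dropL (n + 1) (c :: cs) = dropL n cs := rfl
    have e2 : n + 1 + k = (n + k) + 1 := by omega
    rw [e, dropL_getD n cs k, e2, List.getD_cons_succ]

theorem sumT_spec : ∀ (n : ℕ) (l : List ℕ) (acc : ℕ), sumT n l acc = acc + ∑ k ∈ range n, l.getD k 0
  | 0, l, acc => by
    have e : sumT 0 l acc = acc := rfl
    rw [e]; simp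
  | n + 1, [], acc => by
    have e : sumT (n + 1) [] acc = acc := rfl
    rw [e]; simp
  | n + 1, c :: cs, acc => by
    have e : sumT (n + 1) (c :: cs) acc = sumT n cs (Nat.add acc c) := rfl
    rw [e, sumT_spec n cs, Finset.sum_range_succ']
    simp only [List.getD_cons_succ, List.getD_cons_zero, Nat.add_eq]
    ring

theorem okRows_spec (u : ℕ) (cs : List ℕ) : ∀ (n : ℕ) (l : List ℕ) (i RA : ℕ),
    okRows u cs n l i RA = true → ∀ k < n,
      okRow u cs (i + k) (RA + ∑ m ∈ range (k + 1), l.getD m 0) = true
  | 0, _, _, _, _, k, hk => by omega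
  | n + 1, [], i, RA, h, k, hk => by
    have e : okRows u cs (n + 1) [] i RA = false := rfl
    rw [e] at h; simp at h
  | n + 1, c :: rest, i, RA, h, k, hk => by
    have e : okRows u cs (n + 1) (c :: rest) i RA
        = cond (okRow u cs i (Nat.add RA c)) (okRows u cs n rest (Nat.succ i) (Nat.add RA c)) false := rfl
    rw [e] at h
    cases h1 : okRow u cs i (Nat.add RA c) with
    | false => rw [h1] at h; simp at h
    | true =>
      rw [h1, cond_true] at h
      cases k with
      | zero => simpa using h1
      | succ k =>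
        have h2 := okRows_spec u cs n rest (Nat.succ i) (Nat.add RA c) h k (by omega)
        have e1 : Nat.succ i + k = i + (k + 1) := by omega
        rw [e1] at h2
        have e2 : RA + ∑ m ∈ range (k + 1 + 1), (c :: rest).getD m 0
            = Nat.add RA c + ∑ m ∈ range (k + 1), rest.getD m 0 := by
          rw [Finset.sum_range_succ' _ (k + 1)]
          simp only [List.getD_cons_succ, List.getD_cons_zero, Nat.add_eq]
          ring
        rw [e2]; exact h2

/-- column `k` -/
noncomputable def col (cols : List ℕ) (k : ℕ) : ℕ := (fullc cols 0).getD k 0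

theorem okRange_spec (u : ℕ) (cols : List ℕ) (i0 n : ℕ) (h : okRange u cols i0 n = true)
    (k : ℕ) (hk : k < n) :
    okRow u (fullc cols 0) (i0 + k) (∑ m ∈ range (i0 + k + 1), col cols m) = true := by
  have h1 := okRows_spec u (fullc cols 0) n _ i0 _ h k hk
  rw [sumT_spec] at h1
  have e : 0 + ∑ m ∈ range i0, (fullc cols 0).getD m 0
      + ∑ m ∈ range (k + 1), (dropL i0 (fullc cols 0)).getD m 0
      = ∑ m ∈ range (i0 + k + 1), col cols m := by
    simp only [dropL_getD]
    have e2 := Finset.sum_range_add (fun m => (fullc cols 0).getD m 0) i0 (k + 1)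
    rw [zero_add, add_assoc i0 k 1]
    exact e2.symm
  rw [e] at h1
  exact h1

/-! ### cells of the columns -/

theorem cell_low (v : ℕ) : ∀ (i k : ℕ), i < k → cell (OB * oneN k + XB ^ k * v) i = OB := by
  have hOB : OB < XB := by unfold OB XB; norm_num
  have hone : ∀ k, oneN (k + 1) = 1 + XB * oneN k := by
    intro k
    rw [oneN_eq, oneN_eq, Finset.sum_range_succ', Finset.mul_sum, add_comm]
    simp only [pow_zero]
    congr 1
    apply Finset.sum_congr rfl
    intro j _
    rw [pow_succ']
  have hform : ∀ k, OB * oneN (k + 1) + XB ^ (k + 1) * v = OB + XB * (OB * oneN k + XB ^ k * v) := by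
    intro k
    rw [hone, pow_succ']; ring
  intro i
  induction i with
  | zero =>
    intro k hk
    obtain ⟨k', rfl⟩ : ∃ k', k = k' + 1 := ⟨k - 1, by omega⟩
    rw [hform, cell_zero, Nat.add_mul_mod_self_left, Nat.mod_eq_of_lt hOB]
  | succ i ih =>
    intro k hk
    obtain ⟨k', rfl⟩ : ∃ k', k = k' + 1 := ⟨k - 1, by omega⟩
    rw [hform, cell_succ, Nat.add_mul_div_left _ _ XB_pos, Nat.div_eq_of_lt hOB, zero_add]
    exact ih k' (by omega)

/-- the entry `i` of column `k` -/
noncomputable def ae (cols : List ℕ) (i k : ℕ) : ℕ := cell (col cols k) i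

/-- signed entry -/
noncomputable def Le (cols : List ℕ) (i k : ℕ) : ℤ := (ae cols i k : ℤ) - OB

theorem ae_upper (cols : List ℕ) (hlen : cols.length = 429) (i k : ℕ) (hk : k < 429) (hik : i < k) :
    ae cols i k = OB := by
  unfold ae col
  rw [fullc_getD cols 0 k (by omega), Nat.zero_add]
  exact cell_low _ i k hik

theorem maskC_eq : maskC = (XB - 2 ^ 23) * ∑ j ∈ range 429, XB ^ j := by
  unfold maskC
  rw [oneN_eq]
  norm_num

theorem maskE_eq : maskE = (XB - 2 ^ 24) * ∑ j ∈ range 429, XB ^ j := by
  unfold maskE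
  rw [oneN_eq]
  norm_num

theorem ae_lt (cols : List ℕ) (hlen : cols.length = 429) (hok : okCols (fullc cols 0) = true)
    (i k : ℕ) (hi : i < 429) (hk : k < 429) : ae cols i k < 2 ^ 23 := by
  have h := okCols_spec _ hok k (by rw [fullc_length]; omega)
  rw [maskC_eq] at h
  exact cell_lt_of_mask 23 429 (by norm_num) _ h.1 i hi

theorem col_eq (cols : List ℕ) (hlen : cols.length = 429) (hok : okCols (fullc cols 0) = true)
    (k : ℕ) (hk : k < 429) : col cols k = ∑ j ∈ range 429, ae cols j k * XB ^ j := by
  have h := okCols_spec _ hok k (by rw [fullc_length]; omega)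
  exact eq_sum_cells 429 _ h.2

end Pool.Agent.Helper25.Folk
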