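import Pool.Agent.Helper25.Folk.Entry

/-!
From the kernel check of a row to the estimate `|S N_ij - (L L^T)_ij| ≤ ε`.
-/

namespace Pool.Agent.Helper25.Folk

open Finset

set_option exponentiation.threshold 500

noncomputable def vd (i j : ℕ) : ℕ := if j = i then (if iv i = i then 2 else 4) * vN i else 0
noncomputable def vo (i j : ℕ) : ℕ := if iv i ≠ i ∧ j = iv i then 2 * vN i else 0

/-- the Gram matrix of twice the form -/
noncomputable def NN (u i j : ℕ) : ℤ := (NP u i j : ℤ) - NM i j - (vd i j - vo i j)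

noncomputable def GG (cols : List ℕ) (i j : ℕ) : ℤ := ∑ k ∈ range 429, Le cols i k * Le cols j k

theorem vDiag_eq (i : ℕ) (hi : i < 429) : vDiag i = ∑ j ∈ range 429, vd i j * XB ^ j := by
  rw [Finset.sum_eq_single i]
  · unfold vd vDiag
    rw [if_pos rfl, bc_beq]
    rfl
  · intro j _ hj
    unfold vd
    rw [if_neg hj, zero_mul]
  · intro h; exact absurd (Finset.mem_range.mpr hi) h

theorem vOff_eq (i : ℕ) (hi : i < 429) : vOff i = ∑ j ∈ range 429, vo i j * XB ^ j := by
  have C := cls i hi
  unfold vOff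
  rw [bc_beq]
  by_cases h : iv i = i
  · rw [if_pos h]
    symm
    apply Finset.sum_eq_zero
    intro j _
    unfold vo
    rw [if_neg (fun h2 => h2.1 h), zero_mul]
  · rw [if_neg h, Finset.sum_eq_single (iv i)]
    · unfold vo
      rw [if_pos ⟨h, rfl⟩]
      rfl
    · intro j _ hj
      unfold vo
      rw [if_neg (fun h2 => hj h2.2), zero_mul]
    · intro h2; exact absurd (Finset.mem_range.mpr C.ivlt) h2

theorem vN_lt (i : ℕ) : vN i < 67108864 := Nat.mod_lt _ (by norm_num)

theorem vd_le (i j : ℕ) : vd i j ≤ 268435456 := by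
  have := vN_lt i
  unfold vd; split_ifs <;> omega
theorem vo_le (i j : ℕ) : vo i j ≤ 268435456 := by
  have := vN_lt i
  unfold vo; split_ifs <;> omega

theorem comb1 (n a b c : ℕ) (f g h : ℕ → ℕ) :
    a * ∑ j ∈ range n, XB ^ j + (b * ∑ j ∈ range n, f j * XB ^ j
      + c * (∑ j ∈ range n, g j * XB ^ j + ∑ j ∈ range n, h j * XB ^ j))
      = ∑ j ∈ range n, (a + b * f j + c * (g j + h j)) * XB ^ j := by
  rw [Finset.mul_sum, Finset.mul_sum, mul_add, Finset.mul_sum, Finset.mul_sum,
    ← Finset.sum_add_distrib, ← Finset.sum_add_distrib, ← Finset.sum_add_distrib]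
  apply Finset.sum_congr rfl
  intro j _
  ring

theorem comb2 (n a c : ℕ) (f g h : ℕ → ℕ) :
    ∑ j ∈ range n, f j * XB ^ j + (a * ∑ j ∈ range n, XB ^ j
      + c * (∑ j ∈ range n, g j * XB ^ j + ∑ j ∈ range n, h j * XB ^ j))
      = ∑ j ∈ range n, (f j + a + c * (g j + h j)) * XB ^ j := by
  rw [Finset.mul_sum, mul_add, Finset.mul_sum, Finset.mul_sum,
    ← Finset.sum_add_distrib, ← Finset.sum_add_distrib, ← Finset.sum_add_distrib]
  apply Finset.sum_congr rfl
  intro j _
  ring

variable (cols : List ℕ) (hlen : cols.length = 429) (hok : okCols (fullc cols 0) = true)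

include hlen hok in
theorem abs_Le (i k : ℕ) (hi : i < 429) (hk : k < 429) : |Le cols i k| ≤ 4194304 := by
  have h := ae_lt cols hlen hok i k hi hk
  unfold Le OB
  rw [abs_le]
  constructor <;> push_cast <;> omega

include hlen in
theorem Le_upper (i k : ℕ) (hk : k < 429) (hik : i < k) : Le cols i k = 0 := by
  unfold Le
  rw [ae_upper cols hlen i k hk hik]
  ring

include hlen hok in
theorem row_fact (u i : ℕ) (hi : i < 429)
    (hrow : okRow u (fullc cols 0) i (∑ m ∈ range (i + 1), col cols m) = true) :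
    ∀ j < 429, |(SB : ℤ) * NN u i j - GG cols i j| ≤ EB := by
  set RA := ∑ m ∈ range (i + 1), col cols m with hRA
  -- unfold the check
  have e0 : okRow u (fullc cols 0) i RA = cond (Nat.ble (rhs u i RA) (lhs (fullc cols 0) i))
    (cond (Nat.beq (Nat.land (Nat.sub (lhs (fullc cols 0) i) (rhs u i RA)) maskE) 0)
      (cond (Nat.ble (Nat.succ (Nat.sub (lhs (fullc cols 0) i) (rhs u i RA))) (Nat.pow XB 429))
        (Nat.ble (rowW (rowT2 i)) 33554432) false) false) false := rfl
  rw [e0] at hrow
  obtain ⟨b1, hrow⟩ := bAnd_spec hrow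
  obtain ⟨b2, hrow⟩ := bAnd_spec hrow
  obtain ⟨b3, b4⟩ := bAnd_spec hrow
  have b1' : rhs u i RA ≤ lhs (fullc cols 0) i := ble_iff.mp b1
  have b2' : (lhs (fullc cols 0) i - rhs u i RA) &&& maskE = 0 := beq_iff.mp b2
  have b3' : lhs (fullc cols 0) i - rhs u i RA < XB ^ 429 := ble_iff.mp b3
  have b4' : rowW (rowT2 i) ≤ 33554432 := ble_iff.mp b4
  set Z := lhs (fullc cols 0) i - rhs u i RA with hZ
  rw [maskE_eq] at b2'
  have hd := cell_lt_of_mask 24 429 (by norm_num) Z b2'
  have hZsum := eq_sum_cells 429 Z b3'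
  -- columns
  have hcol : ∀ k ∈ range (i + 1), col cols k = ∑ j ∈ range 429, ae cols j k * XB ^ j := by
    intro k hk
    have := Finset.mem_range.mp hk
    exact col_eq cols hlen hok k (by omega)
  have hRAsum : RA = ∑ j ∈ range 429, (∑ k ∈ range (i + 1), ae cols j k) * XB ^ j := by
    rw [hRA, Finset.sum_congr rfl hcol, Finset.sum_comm]
    apply Finset.sum_congr rfl
    intro j _
    rw [Finset.sum_mul]
  have hbound : ∀ j < 429, (∑ k ∈ range (i + 1), ae cols j k) < XB := by
    intro j hj
    have h1 : ∑ k ∈ range (i + 1), ae cols j k ≤ ∑ k ∈ range (i + 1), 2 ^ 23 := by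
      apply Finset.sum_le_sum
      intro k hk
      have := Finset.mem_range.mp hk
      exact (ae_lt cols hlen hok j k hj (by omega)).le
    rw [Finset.sum_const, Finset.card_range, smul_eq_mul] at h1
    unfold XB
    omega
  have hra : Nat.mod (Nat.shiftRight RA (Nat.mul 56 i)) XB = ∑ k ∈ range (i + 1), ae cols i k := by
    have e1 : Nat.mod (Nat.shiftRight RA (Nat.mul 56 i)) XB = cell RA i := by
      rw [shr_eq]; rfl
    rw [e1, hRAsum]
    exact cell_sum 429 (fun j => ∑ k ∈ range (i + 1), ae cols j k) i hbound hi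
  have hG : rowG (Nat.mul 56 i) (Nat.succ i) (fullc cols 0) 0
      = ∑ j ∈ range 429, (∑ k ∈ range (i + 1), ae cols i k * ae cols j k) * XB ^ j := by
    rw [rowG_spec, zero_add]
    have e2 : ∀ k ∈ range (i + 1), (Nat.shiftRight ((fullc cols 0).getD k 0) (Nat.mul 56 i) % XB)
        * (fullc cols 0).getD k 0 = ∑ j ∈ range 429, ae cols i k * ae cols j k * XB ^ j := by
      intro k hk
      have h1 : (Nat.shiftRight ((fullc cols 0).getD k 0) (Nat.mul 56 i) % XB) = ae cols i k := by
        rw [shr_eq]; rfl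
      have h2 : (fullc cols 0).getD k 0 = ∑ j ∈ range 429, ae cols j k * XB ^ j := hcol k hk
      rw [h1, h2, Finset.mul_sum]
      apply Finset.sum_congr rfl
      intro j _
      ring
    rw [Finset.sum_congr rfl e2, Finset.sum_comm]
    apply Finset.sum_congr rfl
    intro j _
    rw [Finset.sum_mul]
  -- the two sides as packed sums
  have hL : lhs (fullc cols 0) i = ∑ j ∈ range 429,
      ((∑ k ∈ range (i + 1), ae cols i k * ae cols j k) + ((i + 1) * (OB * OB) + EB)
        + SB * (NM i j + vd i j)) * XB ^ j := by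
    unfold lhs
    rw [hG, rowM_eq i hi, vDiag_eq i hi, oneN_eq]
    simp only [Nat.add_eq, Nat.mul_eq, Nat.succ_eq_add_one]
    exact comb2 429 _ _ _ _ _
  have hR : rhs u i RA = ∑ j ∈ range 429,
      (OB * (∑ k ∈ range (i + 1), ae cols i k) + OB * (∑ k ∈ range (i + 1), ae cols j k)
        + SB * (NP u i j + vo i j)) * XB ^ j := by
    unfold rhs
    rw [hra, rowP_eq u i hi, vOff_eq i hi, oneN_eq]
    simp only [Nat.add_eq, Nat.mul_eq]
    conv_lhs => rw [hRAsum]
    exact comb1 429 _ _ _ _ _ _
  -- integer identity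
  have hG2 : ∀ j < 429, GG cols i j = ∑ k ∈ range (i + 1), Le cols i k * Le cols j k := by
    intro j hj
    unfold GG
    symm
    apply Finset.sum_subset
    · intro k hk
      have := Finset.mem_range.mp hk
      exact Finset.mem_range.mpr (by omega)
    · intro k hk hk2
      have h1 := Finset.mem_range.mp hk
      have h2 : i < k := by
        by_contra hcon
        exact hk2 (Finset.mem_range.mpr (by omega))
      rw [Le_upper cols hlen i k h1 h2, zero_mul]
  have hz : ∀ j < 429, (((∑ k ∈ range (i + 1), ae cols i k * ae cols j k) + ((i + 1) * (OB * OB) + EB)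
        + SB * (NM i j + vd i j) : ℕ) : ℤ)
      - ((OB * (∑ k ∈ range (i + 1), ae cols i k) + OB * (∑ k ∈ range (i + 1), ae cols j k)
        + SB * (NP u i j + vo i j) : ℕ) : ℤ) = GG cols i j + EB - SB * NN u i j := by
    intro j hj
    rw [hG2 j hj]
    have e3 : ∑ k ∈ range (i + 1), Le cols i k * Le cols j k
        = ∑ k ∈ range (i + 1), (ae cols i k : ℤ) * ae cols j k
          - OB * ∑ k ∈ range (i + 1), (ae cols i k : ℤ) - OB * ∑ k ∈ range (i + 1), (ae cols j k : ℤ)
          + (i + 1) * (OB * OB) := by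
      have e4 : ∀ k ∈ range (i + 1), Le cols i k * Le cols j k
          = (ae cols i k : ℤ) * ae cols j k - OB * (ae cols i k : ℤ) - OB * (ae cols j k : ℤ) + OB * OB := by
        intro k _
        unfold Le
        ring
      rw [Finset.sum_congr rfl e4, Finset.sum_add_distrib, Finset.sum_sub_distrib,
        Finset.sum_sub_distrib, Finset.sum_const, Finset.card_range, ← Finset.mul_sum, ← Finset.mul_sum]
      simp only [nsmul_eq_mul]
      push_cast
      ring
    rw [e3]
    unfold NN
    push_cast
    ring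
  have hZint : ∑ j ∈ range 429, (GG cols i j + EB - SB * NN u i j) * (XB : ℤ) ^ j
      = ∑ j ∈ range 429, ((cell Z j : ℕ) : ℤ) * (XB : ℤ) ^ j := by
    have h1 : ((Z : ℕ) : ℤ) = ∑ j ∈ range 429, ((cell Z j : ℕ) : ℤ) * (XB : ℤ) ^ j := by
      have := congrArg (fun x : ℕ => (x : ℤ)) hZsum
      push_cast at this
      exact this
    rw [← h1, hZ, Nat.cast_sub b1', hL, hR]
    push_cast
    rw [← Finset.sum_sub_distrib]
    apply Finset.sum_congr rfl
    intro j hj
    have := hz j (Finset.mem_range.mp hj)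
    push_cast at this
    rw [← this]
    ring
  -- a priori bounds
  have hzb : ∀ j < 429, 2 * |GG cols i j + EB - SB * NN u i j| < XB := by
    intro j hj
    have g1 : |GG cols i j| ≤ 429 * (4194304 * 4194304) := by
      unfold GG
      calc |∑ k ∈ range 429, Le cols i k * Le cols j k|
          ≤ ∑ k ∈ range 429, |Le cols i k * Le cols j k| := Finset.abs_sum_le_sum_abs _ _
        _ ≤ ∑ k ∈ range 429, 4194304 * 4194304 := by
            apply Finset.sum_le_sum
            intro k hk
            have hk' := Finset.mem_range.mp hk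
            rw [abs_mul]
            exact mul_le_mul (abs_Le cols hlen hok i k hi hk') (abs_Le cols hlen hok j k hj hk')
              (abs_nonneg _) (by norm_num)
        _ = 429 * (4194304 * 4194304) := by
            rw [Finset.sum_const, Finset.card_range]; norm_num
    have g2 := NP_le u i j hi
    have g3 := NM_le i j hi
    have g4 := vd_le i j
    have g5 := vo_le i j
    have g6 : |NN u i j| ≤ 6000000000 := by
      unfold NN
      rw [abs_le]
      constructor <;> omega
    have g7 : |(SB : ℤ) * NN u i j| ≤ 1048576 * 6000000000 := by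
      rw [abs_mul]
      have : |(SB : ℤ)| = 1048576 := by unfold SB; norm_num
      rw [this]
      exact mul_le_mul_of_nonneg_left g6 (by norm_num)
    have g8 : (EB : ℤ) = 8388608 := by unfold EB; norm_num
    have g9 : (XB : ℤ) = 72057594037927936 := by unfold XB; norm_num
    rw [g8, g9]
    rw [abs_le] at g1 g7
    have g10 : |GG cols i j + 8388608 - SB * NN u i j| ≤ 15000000000000000 := by
      rw [abs_le]
      constructor <;> linarith [g1.1, g1.2, g7.1, g7.2]
    linarith
  have hdb : ∀ j < 429, 2 * |((cell Z j : ℕ) : ℤ)| < XB := by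
    intro j hj
    have := hd j hj
    have g9 : (XB : ℤ) = 72057594037927936 := by unfold XB; norm_num
    rw [g9, abs_of_nonneg (Int.natCast_nonneg _)]
    have h3 : ((cell Z j : ℕ) : ℤ) < 2 ^ 24 := by exact_mod_cast this
    linarith
  have huniq := balanced_unique 429 _ _ hzb hdb hZint
  intro j hj
  have h1 := huniq j hj
  have h2 := hd j hj
  have h3 : ((cell Z j : ℕ) : ℤ) < 2 ^ 24 := by exact_mod_cast h2
  have h4 : (0 : ℤ) ≤ ((cell Z j : ℕ) : ℤ) := Int.natCast_nonneg _
  have g8 : (EB : ℤ) = 8388608 := by unfold EB; norm_num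
  rw [← h1] at h3 h4
  rw [g8] at h3 h4 ⊢
  rw [abs_le]
  constructor <;> linarith

end Pool.Agent.Helper25.Folk
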