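import Pool.Agent.Helper25.Folk.Block

/-!
Transfer of nonnegativity along the generator of order 20.
-/

namespace Pool.Agent.Helper25.Folk

open Finset Complex

/-- the linear map -/
def al : V4 →+ V4 where
  toFun x := x 0 • dec 4 + (x 1 • dec 12 + (x 2 • dec 36 + x 3 • dec 31))
  map_zero' := by simp
  map_add' x y := by
    simp only [Pi.add_apply, add_smul]
    abel

theorem dec_smc (d x : ℕ) (hd : d < 3) : dec (smc d x) = (d : ZMod 3) • dec x := by
  unfold smc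
  rw [bc_beq, bc_beq]
  interval_cases d
  · rw [if_pos rfl, Nat.cast_zero, zero_smul]
    funext i
    simp [dec]
  · rw [if_neg (by norm_num), if_pos rfl, Nat.cast_one, one_smul]
  · rw [if_neg (by norm_num), if_neg (by norm_num), dec_addc, ← two_smul (ZMod 3)]
    norm_num

theorem dec_alc (x : ℕ) : dec (alc x) = al (dec x) := by
  have h0 : dec x 0 = ((x % 3 : ℕ) : ZMod 3) := by
    rw [cast_mod3]; simp [dec]
  have h1 : dec x 1 = ((x / 3 % 3 : ℕ) : ZMod 3) := by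
    rw [cast_mod3]; simp [dec]
  have h2 : dec x 2 = ((x / 9 % 3 : ℕ) : ZMod 3) := by
    rw [cast_mod3]; simp [dec]
  have h3 : dec x 3 = ((x / 27 % 3 : ℕ) : ZMod 3) := by
    rw [cast_mod3]
    have e3 : ((3 : Fin 4) : ℕ) = 3 := rfl
    simp [dec, e3]
  have e : al (dec x) = dec x 0 • dec 4 + (dec x 1 • dec 12 + (dec x 2 • dec 36 + dec x 3 • dec 31)) := rfl
  have e2 : alc x = addc (smc (x % 3) 4) (addc (smc (x / 3 % 3) 12)
    (addc (smc (x / 9 % 3) 36) (smc (x / 27 % 3) 31))) := rfl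
  rw [e, e2, h0, h1, h2, h3, dec_addc, dec_addc, dec_addc, dec_smc _ _ (Nat.mod_lt _ (by norm_num)),
    dec_smc _ _ (Nat.mod_lt _ (by norm_num)), dec_smc _ _ (Nat.mod_lt _ (by norm_num)),
    dec_smc _ _ (Nat.mod_lt _ (by norm_num))]

theorem alT_eq (u : ℕ) : alT u = dotc u 4 + (3 * dotc u 12 + (9 * dotc u 36 + 27 * dotc u 31)) := rfl

theorem dot_dec (u x : ℕ) : (∑ i, dec u i * dec x i) = ((dotc u x : ℕ) : ZMod 3) := by
  rw [Fin.sum_univ_four]
  rw [dotc_eq, cast_mod3]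
  unfold dec
  push_cast
  simp only [Fin.val_zero, Fin.val_one, Fin.val_two, pow_zero, pow_one, Nat.div_one]
  have e3 : ((3 : Fin 4) : ℕ) = 3 := rfl
  rw [e3]
  norm_num
  ring

/-- digits of a code -/
theorem dec_digits (a b c d : ℕ) (ha : a < 3) (hb : b < 3) (hc : c < 3) (hd : d < 3) :
    dec (a + (3 * b + (9 * c + 27 * d))) = ![(a : ZMod 3), b, c, d] := by
  have three : ((3 : ℕ) : ZMod 3) = 0 := by decide
  funext i
  fin_cases i
  · show (((a + (3 * b + (9 * c + 27 * d))) / 3 ^ 0 : ℕ) : ZMod 3) = a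
    rw [pow_zero, Nat.div_one]
    have : a + (3 * b + (9 * c + 27 * d)) = a + 3 * (b + 3 * c + 9 * d) := by ring
    rw [this, Nat.cast_add, Nat.cast_mul, three, zero_mul, add_zero]
  · show (((a + (3 * b + (9 * c + 27 * d))) / 3 ^ 1 : ℕ) : ZMod 3) = b
    have : (a + (3 * b + (9 * c + 27 * d))) / 3 ^ 1 = b + 3 * (c + 3 * d) := by omega
    rw [this, Nat.cast_add, Nat.cast_mul, three, zero_mul, add_zero]
  · show (((a + (3 * b + (9 * c + 27 * d))) / 3 ^ 2 : ℕ) : ZMod 3) = c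
    have : (a + (3 * b + (9 * c + 27 * d))) / 3 ^ 2 = c + 3 * d := by omega
    rw [this, Nat.cast_add, Nat.cast_mul, three, zero_mul, add_zero]
  · show (((a + (3 * b + (9 * c + 27 * d))) / 3 ^ 3 : ℕ) : ZMod 3) = d
    have : (a + (3 * b + (9 * c + 27 * d))) / 3 ^ 3 = d := by omega
    rw [this]

theorem chi_al (u : ℕ) (x : V4) : chi (dec u) (al x) = chi (dec (alT u)) x := by
  unfold chi
  congr 1
  have h : dec (alT u) = ![((dotc u 4 : ℕ) : ZMod 3), ((dotc u 12 : ℕ) : ZMod 3), ((dotc u 36 : ℕ) : ZMod 3),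
      ((dotc u 31 : ℕ) : ZMod 3)] := by
    rw [alT_eq]
    exact dec_digits _ _ _ _ (dotc_lt _ _) (dotc_lt _ _) (dotc_lt _ _) (dotc_lt _ _)
  rw [h, ← dot_dec, ← dot_dec, ← dot_dec, ← dot_dec]
  have e : ∀ i, al x i = x 0 * dec 4 i + (x 1 * dec 12 i + (x 2 * dec 36 i + x 3 * dec 31 i)) := fun i => rfl
  simp only [e, Fin.sum_univ_four, Matrix.cons_val_zero, Matrix.cons_val_one, Matrix.cons_val]
  ring

structure PiFacts (q : ℕ) : Prop where
  lt1 : pi1 q < 429
  lt2 : pi2 q < 429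
  inv1 : pi2 (pi1 q) = q
  inv2 : pi1 (pi2 q) = q
  v : vN (pi1 q) = vN q
  de : de (pi1 q) = alc (de q)

theorem pif (q : ℕ) (hq : q < 429) : PiFacts q := by
  have h := allN_spec _ _ fpi_all q hq
  obtain ⟨h1, h⟩ := bAnd_spec h
  obtain ⟨h2, h⟩ := bAnd_spec h
  obtain ⟨h3, h⟩ := bAnd_spec h
  obtain ⟨h4, h⟩ := bAnd_spec h
  obtain ⟨h5, h6⟩ := bAnd_spec h
  have h1' := ble_iff.mp h1
  have h2' := ble_iff.mp h2
  exact ⟨by omega, by omega, beq_iff.mp h3, beq_iff.mp h4, beq_iff.mp h5, beq_iff.mp h6⟩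

structure SgFacts (t : ℕ) : Prop where
  lt1 : sg1 t < 2683
  lt2 : sg2 t < 2683
  inv1 : sg2 (sg1 t) = t
  inv2 : sg1 (sg2 t) = t
  w : wN (sg1 t) = wN t
  a0 : t0 (sg1 t) = pi1 (t0 t)
  a1 : t1 (sg1 t) = pi1 (t1 t)
  a2 : t2 (sg1 t) = pi1 (t2 t)

theorem sgf (t : ℕ) (ht : t < 2683) : SgFacts t := by
  have h := allN_spec _ _ fsg_all t ht
  obtain ⟨h1, h⟩ := bAnd_spec h
  obtain ⟨h2, h⟩ := bAnd_spec h
  obtain ⟨h3, h⟩ := bAnd_spec h
  obtain ⟨h4, h⟩ := bAnd_spec h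
  obtain ⟨h5, h⟩ := bAnd_spec h
  obtain ⟨h6, h⟩ := bAnd_spec h
  obtain ⟨h7, h8⟩ := bAnd_spec h
  have h1' := ble_iff.mp h1
  have h2' := ble_iff.mp h2
  exact ⟨by omega, by omega, beq_iff.mp h3, beq_iff.mp h4, beq_iff.mp h5, beq_iff.mp h6,
    beq_iff.mp h7, beq_iff.mp h8⟩

theorem step (u : ℕ) (hQ : ∀ y, 0 ≤ Qh 2683 429 cl3 dm3 wR vR (dec u) y) (y : ℕ → ℂ) :
    0 ≤ Qh 2683 429 cl3 dm3 wR vR (dec (alT u)) y := by
  refine Qh_nonneg_transfer 2683 429 cl3 dm3 wR vR (dec u) (dec (alT u)) al (chi_al u) sg1 sg2 pi1 pi2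
    cl3_mem ?_ ?_ ?_ ?_ ?_ ?_ ?_ ?_ ?_ ?_ ?_ hQ y
  · intro t ht; exact mem_range.mpr (sgf t (mem_range.mp ht)).lt1
  · intro t ht; exact mem_range.mpr (sgf t (mem_range.mp ht)).lt2
  · intro t ht; exact (sgf t (mem_range.mp ht)).inv1
  · intro t ht; exact (sgf t (mem_range.mp ht)).inv2
  · intro t ht; exact mem_range.mpr (pif t (mem_range.mp ht)).lt1
  · intro t ht; exact mem_range.mpr (pif t (mem_range.mp ht)).lt2
  · intro t ht; exact (pif t (mem_range.mp ht)).inv1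
  · intro t ht; exact (pif t (mem_range.mp ht)).inv2
  · intro t ht
    unfold wR
    rw [(sgf t (mem_range.mp ht)).w]
  · intro t ht
    unfold vR
    rw [(pif t (mem_range.mp ht)).v]
  · intro t ht
    have ht' := mem_range.mp ht
    have S := sgf t ht'
    have T := tri t ht'
    refine ⟨0, Equiv.refl _, fun r => ?_⟩
    rw [Equiv.refl_apply, add_zero]
    fin_cases r
    · exact ⟨S.a0, by
        show dec (de (t0 (sg1 t))) = al (dec (de (t0 t)))
        rw [S.a0, (pif _ T.l0).de, dec_alc]⟩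
    · exact ⟨S.a1, by
        show dec (de (t1 (sg1 t))) = al (dec (de (t1 t)))
        rw [S.a1, (pif _ T.l1).de, dec_alc]⟩
    · exact ⟨S.a2, by
        show dec (de (t0 (sg1 t))) + dec (de (t1 (sg1 t))) = al (dec (de (t0 t)) + dec (de (t1 t)))
        rw [S.a0, S.a1, (pif _ T.l0).de, (pif _ T.l1).de, dec_alc, dec_alc, map_add]⟩

theorem steps (u : ℕ) (hQ : ∀ y, 0 ≤ Qh 2683 429 cl3 dm3 wR vR (dec u) y) :
    ∀ (n : ℕ) (y : ℕ → ℂ), 0 ≤ Qh 2683 429 cl3 dm3 wR vR (dec (itT u n)) y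
  | 0, y => hQ y
  | n + 1, y => by
    have e : itT u (n + 1) = alT (itT u n) := rfl
    rw [e]
    exact step _ (fun y => steps u hQ n y) y

theorem allN_false (f : ℕ → Bool) : ∀ n, allN f n = false → ∃ k < n, f k = false
  | 0, h => by
    have e : allN f 0 = true := rfl
    rw [e] at h; exact absurd h (by decide)
  | n + 1, h => by
    have e : allN f (n + 1) = cond (f n) (allN f n) false := rfl
    rw [e] at h
    cases h1 : f n with
    | false => exact ⟨n, by omega, h1⟩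
    | true =>
      rw [h1, cond_true] at h
      obtain ⟨k, hk, hf⟩ := allN_false f n h
      exact ⟨k, by omega, hf⟩

theorem orbit_of (r u : ℕ) (h : allN (fun k => cond (Nat.beq (itT r k) u) false true) 20 = false) :
    ∃ k, itT r k = u := by
  obtain ⟨k, _, hk⟩ := allN_false _ _ h
  refine ⟨k, ?_⟩
  cases h1 : Nat.beq (itT r k) u with
  | true => exact beq_iff.mp h1
  | false => simp only [h1, cond_false] at hk; exact absurd hk (by decide)

theorem rep_cases (u : ℕ) (hu : u < 81) :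
    u = 0 ∨ (∃ k, itT 1 k = u) ∨ (∃ k, itT 3 k = u) ∨ (∃ k, itT 9 k = u) ∨ (∃ k, itT 11 k = u) := by
  have h := allN_spec _ _ frep_all u hu
  unfold frep at h
  cases h0 : Nat.beq u 0 with
  | true => exact Or.inl (beq_iff.mp h0)
  | false =>
    rw [h0, cond_false] at h
    right
    cases h1 : allN (fun k => cond (Nat.beq (itT 1 k) u) false true) 20 with
    | false => exact Or.inl (orbit_of 1 u h1)
    | true =>
      rw [h1, cond_true] at h
      right
      cases h3 : allN (fun k => cond (Nat.beq (itT 3 k) u) false true) 20 with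
      | false => exact Or.inl (orbit_of 3 u h3)
      | true =>
        rw [h3, cond_true] at h
        right
        cases h9 : allN (fun k => cond (Nat.beq (itT 9 k) u) false true) 20 with
        | false => exact Or.inl (orbit_of 9 u h9)
        | true =>
          rw [h9, cond_true] at h
          right
          cases h11 : allN (fun k => cond (Nat.beq (itT 11 k) u) false true) 20 with
          | false => exact orbit_of 11 u h11
          | true => rw [h11, cond_true] at h; exact absurd h (by decide)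

/-- code of a vector -/
def enc (x : V4) : ℕ := (x 0).val + (3 * (x 1).val + (9 * (x 2).val + 27 * (x 3).val))

theorem enc_lt (x : V4) : enc x < 81 := by
  have h0 := ZMod.val_lt (x 0)
  have h1 := ZMod.val_lt (x 1)
  have h2 := ZMod.val_lt (x 2)
  have h3 := ZMod.val_lt (x 3)
  unfold enc
  omega

theorem dec_enc (x : V4) : dec (enc x) = x := by
  unfold enc
  rw [dec_digits _ _ _ _ (ZMod.val_lt _) (ZMod.val_lt _) (ZMod.val_lt _) (ZMod.val_lt _)]
  simp only [ZMod.natCast_val, ZMod.cast_id', id_eq]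
  funext i
  fin_cases i <;> rfl

theorem enc_dec (n : ℕ) (hn : n < 81) : enc (dec n) = n := by
  unfold enc dec
  have e3 : ((3 : Fin 4) : ℕ) = 3 := rfl
  simp only [Fin.val_zero, Fin.val_one, Fin.val_two, pow_zero, pow_one, Nat.div_one, e3, ZMod.val_natCast]
  omega

theorem all_blocks (b0 : ∀ y, 0 ≤ Qh 2683 429 cl3 dm3 wR vR (dec 0) y)
    (b1 : ∀ y, 0 ≤ Qh 2683 429 cl3 dm3 wR vR (dec 1) y)
    (b3 : ∀ y, 0 ≤ Qh 2683 429 cl3 dm3 wR vR (dec 3) y)
    (b9 : ∀ y, 0 ≤ Qh 2683 429 cl3 dm3 wR vR (dec 9) y)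
    (b11 : ∀ y, 0 ≤ Qh 2683 429 cl3 dm3 wR vR (dec 11) y)
    (u : V4) (y : ℕ → ℂ) : 0 ≤ Qh 2683 429 cl3 dm3 wR vR u y := by
  rw [← dec_enc u]
  rcases rep_cases (enc u) (enc_lt u) with h | ⟨k, h⟩ | ⟨k, h⟩ | ⟨k, h⟩ | ⟨k, h⟩
  · rw [h]; exact b0 y
  · rw [← h]; exact steps 1 b1 k y
  · rw [← h]; exact steps 3 b3 k y
  · rw [← h]; exact steps 9 b9 k y
  · rw [← h]; exact steps 11 b11 k y

/-! ### the totals -/

theorem sumN_spec (f : ℕ → ℕ) : ∀ n, sumN f n = ∑ k ∈ range n, f k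
  | 0 => by simp [sumN]
  | n + 1 => by
    have e : sumN f (n + 1) = Nat.add (sumN f n) (f n) := rfl
    rw [e, sumN_spec f n, Finset.sum_range_succ]
    rfl

theorem total_lt : ∑ t ∈ range 2683, wR t < ∑ i ∈ range 429, vR i := by
  have h := ble_iff.mp sum_vw
  rw [sumN_spec, sumN_spec] at h
  simp only [Nat.add_eq, Nat.mul_eq, Nat.succ_eq_add_one] at h
  have h2 : ((∑ t ∈ range 2683, wN t + 1716 * 429 + 1 : ℕ) : ℝ) ≤ ((∑ i ∈ range 429, vN i : ℕ) : ℝ) :=
    Nat.cast_le.mpr h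
  push_cast at h2
  unfold vR wR
  rw [Finset.sum_sub_distrib, Finset.sum_const, Finset.card_range, nsmul_eq_mul]
  push_cast
  linarith

end Pool.Agent.Helper25.Folk
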